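import Mathlib

set_option autoImplicit false

/-! The generating function of the subset sums in a cyclic group, twisted by a character of prime
power order. -/

namespace Pool.Agent.R865.DS
open Finset Polynomial

/-- `∏ (1 + ζ^i X) = 1 - (-X)^q` -/
lemma prod_roots {q : ℕ} (hq : 0 < q) {ζ : ℂ} (hζ : IsPrimitiveRoot ζ q) :
    ∏ i ∈ range q, (1 + C (ζ ^ i) * X : ℂ[X]) = 1 - (-X) ^ q := by
  apply Polynomial.funext
  intro x
  rw [eval_prod]
  simp only [eval_add, eval_one, eval_mul, eval_C, eval_X, eval_sub, eval_pow, eval_neg]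
  rcases eq_or_ne x 0 with rfl | hx
  · simp [hq.ne']
  · have h := X_pow_sub_C_eq_prod hζ (α := 1) (a := 1) hq (one_pow q)
    have h2 := congrArg (fun P : ℂ[X] => (-x) ^ q * P.eval (- x⁻¹)) h
    simp only [eval_prod, eval_sub, eval_pow, eval_X, eval_C, mul_one] at h2
    have h3 : (-x) ^ q * ∏ i ∈ range q, (-x⁻¹ - ζ ^ i) = ∏ i ∈ range q, (1 + ζ ^ i * x) := by
      rw [← card_range q, ← Finset.prod_const, card_range, ← Finset.prod_mul_distrib]
      refine Finset.prod_congr rfl fun i _ => ?_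
      field_simp
      ring
    rw [← h3, ← h2, mul_sub, ← mul_pow, mul_one]
    congr 1
    rw [neg_mul_neg, mul_inv_cancel₀ hx, one_pow]

lemma prod_roots' {S : Type*} [CommRing S] [Algebra ℂ S] {q : ℕ} (hq : 0 < q) {ζ : ℂ}
    (hζ : IsPrimitiveRoot ζ q) (W : S) :
    ∏ i ∈ range q, (1 + algebraMap ℂ S (ζ ^ i) * W) = 1 - (-W) ^ q := by
  have h := congrArg (aeval W) (prod_roots hq hζ)
  rw [map_prod] at h
  simpa using h

lemma prod_val {S : Type*} [CommMonoid S] {q : ℕ} [NeZero q] (f : ℕ → S) :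
    ∏ t : ZMod q, f t.val = ∏ i ∈ range q, f i := by
  apply Finset.prod_bij (fun (t : ZMod q) _ => t.val)
  · intro t _
    exact Finset.mem_range.2 (ZMod.val_lt t)
  · intro a _ b _ h
    exact ZMod.val_injective q h
  · intro i hi
    exact ⟨(i : ZMod q), Finset.mem_univ _, ZMod.val_cast_of_lt (Finset.mem_range.1 hi)⟩
  · intro t _
    rfl

/-- products along a surjective homomorphism -/
lemma prod_comp_hom {G H S : Type*} [AddCommGroup G] [Fintype G] [AddCommGroup H] [Fintype H]
    [DecidableEq H] [CommMonoid S] (π : G →+ H) (hπ : Function.Surjective π) (f : H → S) :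
    ∏ g, f (π g) = (∏ h, f h) ^ (Fintype.card G / Fintype.card H) := by
  classical
  have hc : ∀ h : H, (univ.filter (fun g => π g = h)).card =
      (univ.filter (fun g => π g = 0)).card := by
    intro h
    exact AddMonoidHom.card_fiber_eq_of_mem_range π (hπ h) (hπ 0)
  have hcard : Fintype.card G / Fintype.card H = (univ.filter (fun g => π g = 0)).card := by
    have h1 : Fintype.card G = ∑ h : H, (univ.filter (fun g => π g = h)).card := by
      rw [← Finset.card_univ]
      exact Finset.card_eq_sum_card_fiberwise (fun _ _ => Finset.mem_univ _)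
    rw [h1, Finset.sum_congr rfl (fun h _ => hc h), Finset.sum_const, Finset.card_univ,
      smul_eq_mul, Nat.mul_div_cancel_left _ Fintype.card_pos]
  rw [hcard, ← Finset.prod_fiberwise univ π, ← Finset.prod_pow]
  refine Finset.prod_congr rfl fun h _ => ?_
  rw [← hc h, Finset.prod_congr rfl (g := fun _ => f h), Finset.prod_const]
  intro g hg
  rw [(Finset.mem_filter.1 hg).2]

/-- the weight of `y`: the character value at the residue modulo `n'` -/
noncomputable def wt (n n' : ℕ) [NeZero n] (hn' : n' ∣ n) (e : AddChar (ZMod n) ℂ) (y : ZMod n) :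
    AddMonoidAlgebra ℂ (ZMod n') :=
  AddMonoidAlgebra.single (ZMod.castHom hn' (ZMod n') y) (e y)

lemma wt_zero {n n' : ℕ} [NeZero n] (hn' : n' ∣ n) (e : AddChar (ZMod n) ℂ) :
    wt n n' hn' e 0 = 1 := by
  rw [wt, map_zero, AddChar.map_zero_eq_one]
  rfl

lemma wt_prod {n n' : ℕ} [NeZero n] (hn' : n' ∣ n) (e : AddChar (ZMod n) ℂ)
    (A : Finset (ZMod n)) : ∏ y ∈ A, wt n n' hn' e y = wt n n' hn' e (∑ y ∈ A, y) := by
  classical
  induction A using Finset.induction_on with
  | empty => rw [Finset.prod_empty, Finset.sum_empty, wt_zero]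
  | insert a s ha ih =>
    rw [Finset.prod_insert ha, Finset.sum_insert ha, ih, wt, wt, wt,
      AddMonoidAlgebra.single_mul_single, map_add, AddChar.map_add_eq_mul]

/-- a product `∏ (1 + f y X ^ q)` expanded -/
lemma prod_expand {ι 𝔸 : Type*} [CommRing 𝔸] (s : Finset ι) (f : ι → 𝔸) (q : ℕ) :
    ∏ y ∈ s, (1 + C (f y) * X ^ q : 𝔸[X]) =
      ∑ A ∈ s.powerset, C (∏ y ∈ A, f y) * X ^ (q * A.card) := by
  classical
  rw [Finset.prod_one_add]
  refine Finset.sum_congr rfl fun A _ => ?_
  rw [Finset.prod_mul_distrib, Finset.prod_const, map_prod, pow_mul]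

lemma coeff_prod_one {ι 𝔸 : Type*} [CommRing 𝔸] (s : Finset ι) (f : ι → 𝔸) (m : ℕ) :
    (∏ y ∈ s, (1 + C (f y) * X : 𝔸[X])).coeff m =
      ∑ A ∈ s.powersetCard m, ∏ y ∈ A, f y := by
  classical
  have h := prod_expand s f 1
  simp only [pow_one, one_mul] at h
  rw [h, finsetSum_coeff]
  simp only [coeff_C_mul, coeff_X_pow]
  rw [Finset.powersetCard_eq_filter, Finset.sum_filter]
  refine Finset.sum_congr rfl fun A _ => ?_
  by_cases hA : A.card = m
  · simp [hA]
  · rw [if_neg hA, if_neg (Ne.symm hA), mul_zero]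

lemma coeff_prod_q {ι 𝔸 : Type*} [CommRing 𝔸] (s : Finset ι) (f : ι → 𝔸) {q : ℕ} (hq : 0 < q)
    (m : ℕ) :
    ((∑ i ∈ range q, (-X) ^ i) * ∏ y ∈ s, (1 + C (f y) * X ^ q : 𝔸[X])).coeff m =
      (-1) ^ (m % q) * ∑ A ∈ s.powersetCard (m / q), ∏ y ∈ A, f y := by
  classical
  rw [prod_expand, Finset.sum_mul_sum, finsetSum_coeff]
  simp only [finsetSum_coeff]
  have h1 : ∀ i ∈ range q, ∀ A ∈ s.powerset,
      ((-X) ^ i * (C (∏ y ∈ A, f y) * X ^ (q * A.card)) : 𝔸[X]).coeff m =
      if (i = m % q ∧ A.card = m / q) then (-1) ^ (m % q) * ∏ y ∈ A, f y else 0 := by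
    intro i hi A _
    have e : ((-X) ^ i * (C (∏ y ∈ A, f y) * X ^ (q * A.card)) : 𝔸[X]) =
        C ((-1) ^ i * ∏ y ∈ A, f y) * X ^ (i + q * A.card) := by
      rw [neg_pow, pow_add, C_mul, C_pow, C_neg, C_1]
      ring
    rw [e, coeff_C_mul, coeff_X_pow]
    rw [Finset.mem_range] at hi
    by_cases h : m = i + q * A.card
    · have h2 : m % q = i := by rw [h, Nat.add_mul_mod_self_left, Nat.mod_eq_of_lt hi]
      have h3 : m / q = A.card := by
        rw [h, Nat.add_mul_div_left _ _ hq, Nat.div_eq_of_lt hi, zero_add]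
      rw [if_pos h, if_pos ⟨h2.symm, h3.symm⟩, h2, mul_one]
    · rw [if_neg h, if_neg, mul_zero]
      rintro ⟨h2, h3⟩
      apply h
      rw [h2, h3]
      exact (Nat.mod_add_div m q).symm
  rw [Finset.sum_congr rfl (fun i hi => Finset.sum_congr rfl (h1 i hi))]
  rw [Finset.sum_eq_single (m % q)]
  · rw [Finset.powersetCard_eq_filter, Finset.sum_filter, Finset.mul_sum]
    refine Finset.sum_congr rfl fun A _ => ?_
    by_cases hA : A.card = m / q
    · simp [hA]
    · simp [hA]
  · intro i _ hi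
    apply Finset.sum_eq_zero
    intro A _
    rw [if_neg]
    exact fun h => hi h.1
  · intro h
    exact absurd (Finset.mem_range.2 (Nat.mod_lt m hq)) h

end Pool.Agent.R865.DS
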