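import Mathlib
import Pool.Agent.R865.DS.A

set_option autoImplicit false

/-! The twisted count of subset sums. -/

namespace Pool.Agent.R865.DS
open Finset Polynomial

/-- number of `m`-subsets of the nonzero elements with sum `z` -/
def F (n m : ℕ) [NeZero n] (z : ZMod n) : ℕ :=
  (((univ.erase (0 : ZMod n)).powersetCard m).filter (fun A => ∑ y ∈ A, y = z)).card

/-- the label of a block -/
noncomputable def gd (N n' q : ℕ) (hN : n' ∣ N) (d : ZMod N) : AddMonoidAlgebra ℂ (ZMod n') :=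
  AddMonoidAlgebra.single (q • ZMod.castHom hN (ZMod n') d) ((-1) ^ (q + 1))

lemma gd_prod {N n' q : ℕ} (hN : n' ∣ N) (A : Finset (ZMod N)) :
    ∏ d ∈ A, gd N n' q hN d =
      AddMonoidAlgebra.single (q • ZMod.castHom hN (ZMod n') (∑ d ∈ A, d))
        (((-1) ^ (q + 1)) ^ A.card) := by
  classical
  induction A using Finset.induction_on with
  | empty =>
    rw [Finset.prod_empty, Finset.sum_empty, map_zero, smul_zero, Finset.card_empty, pow_zero]
    rfl
  | insert a s ha ih =>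
    rw [Finset.prod_insert ha, Finset.sum_insert ha, ih, gd,
      AddMonoidAlgebra.single_mul_single, map_add, smul_add, Finset.card_insert_of_notMem ha,
      pow_succ' _ s.card]

lemma crt_surj {n n' q : ℕ} (hn' : n' ∣ n) (hq : q ∣ n) [NeZero n'] [NeZero q]
    (hco : Nat.Coprime n' q) :
    Function.Surjective (((ZMod.castHom hn' (ZMod n')).prod (ZMod.castHom hq (ZMod q))) :
      ZMod n →+* ZMod n' × ZMod q) := by
  rintro ⟨u, v⟩
  obtain ⟨k, hk1, hk2⟩ := Nat.chineseRemainder hco u.val v.val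
  refine ⟨(k : ZMod n), ?_⟩
  rw [RingHom.prod_apply, map_natCast, map_natCast]
  congr 1
  · rw [(ZMod.natCast_eq_natCast_iff _ _ _).2 hk1, ZMod.natCast_zmod_val]
  · rw [(ZMod.natCast_eq_natCast_iff _ _ _).2 hk2, ZMod.natCast_zmod_val]

lemma key_prod {n q N n' : ℕ} [NeZero n] [NeZero N] [NeZero q] [NeZero n'] (hn : n = N * q)
    (hN : n' ∣ N) (hn' : n' ∣ n) (hq : q ∣ n) (hco : Nat.Coprime n' q) {ζ : ℂ}
    (hζ : IsPrimitiveRoot ζ q) (e : AddChar (ZMod n) ℂ)
    (he : ∀ y : ZMod n, e y = ζ ^ (ZMod.castHom hq (ZMod q) y).val) :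
    ∏ y : ZMod n, (1 + C (wt n n' hn' e y) * X : (AddMonoidAlgebra ℂ (ZMod n'))[X]) =
      ∏ d : ZMod N, (1 + C (gd N n' q hN d) * X ^ q) := by
  have hq0 : 0 < q := Nat.pos_of_ne_zero (NeZero.ne q)
  set Fp : ZMod n' × ZMod q → (AddMonoidAlgebra ℂ (ZMod n'))[X] := fun p =>
    1 + C (AddMonoidAlgebra.single p.1 (ζ ^ p.2.val)) * X with hFp
  set Gp : ZMod n' → (AddMonoidAlgebra ℂ (ZMod n'))[X] := fun u =>
    1 + C (AddMonoidAlgebra.single (q • u) ((-1) ^ (q + 1))) * X ^ q with hGp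
  have h1 : ∏ y : ZMod n, (1 + C (wt n n' hn' e y) * X : (AddMonoidAlgebra ℂ (ZMod n'))[X]) =
      (∏ p, Fp p) ^ (Fintype.card (ZMod n) / Fintype.card (ZMod n' × ZMod q)) := by
    rw [← prod_comp_hom (((ZMod.castHom hn' (ZMod n')).prod
      (ZMod.castHom hq (ZMod q))).toAddMonoidHom) (crt_surj hn' hq hco) Fp]
    refine Finset.prod_congr rfl fun y _ => ?_
    rw [wt, he y]
    rfl
  have h2 : ∏ d : ZMod N, (1 + C (gd N n' q hN d) * X ^ q : (AddMonoidAlgebra ℂ (ZMod n'))[X]) =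
      (∏ u, Gp u) ^ (Fintype.card (ZMod N) / Fintype.card (ZMod n')) := by
    rw [← prod_comp_hom ((ZMod.castHom hN (ZMod n')).toAddMonoidHom)
      (ZMod.castHom_surjective hN) Gp]
    rfl
  have h3 : ∏ p, Fp p = ∏ u, Gp u := by
    rw [Fintype.prod_prod_type]
    refine Finset.prod_congr rfl fun u _ => ?_
    have h4 := prod_roots' hq0 hζ (C (AddMonoidAlgebra.single u (1 : ℂ)) * X :
      (AddMonoidAlgebra ℂ (ZMod n'))[X])
    have h5 : ∀ t : ZMod q, Fp (u, t) = (fun i : ℕ =>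
        1 + algebraMap ℂ (AddMonoidAlgebra ℂ (ZMod n'))[X] (ζ ^ i) *
          (C (AddMonoidAlgebra.single u (1 : ℂ)) * X)) t.val := by
      intro t
      simp only [hFp]
      rw [← mul_assoc]
      congr 2
      rw [Polynomial.algebraMap_apply, ← C_mul]
      congr 1
      rw [← Algebra.smul_def, AddMonoidAlgebra.smul_single, smul_eq_mul, mul_one]
    refine (Finset.prod_congr rfl (fun t _ => h5 t)).trans ((prod_val _).trans (h4.trans ?_))
    simp only [hGp]
    rw [neg_pow (C (AddMonoidAlgebra.single u (1 : ℂ)) * X : (AddMonoidAlgebra ℂ (ZMod n'))[X]) q,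
      mul_pow, ← C_pow, AddMonoidAlgebra.single_pow, one_pow, sub_eq_add_neg]
    congr 1
    have h7 : (AddMonoidAlgebra.single (q • u) ((-1 : ℂ) ^ (q + 1))) =
        (-1) ^ (q + 1) * AddMonoidAlgebra.single (q • u) (1 : ℂ) := by
      have h8 : (-1 : AddMonoidAlgebra ℂ (ZMod n')) = AddMonoidAlgebra.single 0 (-1) := by
        rw [AddMonoidAlgebra.single_neg]
        rfl
      rw [h8, AddMonoidAlgebra.single_pow, smul_zero, AddMonoidAlgebra.single_mul_single,
        zero_add, mul_one]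
    rw [h7, C_mul, C_pow, C_neg, C_1, pow_succ]
    ring
  rw [h1, h2, h3]
  congr 1
  rw [Fintype.card_prod, ZMod.card, ZMod.card, ZMod.card, ZMod.card, hn, mul_comm n' q,
    ← Nat.div_div_eq_div_mul, Nat.mul_div_cancel _ hq0]

lemma key_coeff {n q N n' : ℕ} [NeZero n] [NeZero N] [NeZero q] [NeZero n'] (hn : n = N * q)
    (hN : n' ∣ N) (hn' : n' ∣ n) (hq : q ∣ n) (hco : Nat.Coprime n' q) {ζ : ℂ}
    (hζ : IsPrimitiveRoot ζ q) (e : AddChar (ZMod n) ℂ)
    (he : ∀ y : ZMod n, e y = ζ ^ (ZMod.castHom hq (ZMod q) y).val) (m : ℕ) :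
    ∑ A ∈ (univ.erase (0 : ZMod n)).powersetCard m, wt n n' hn' e (∑ y ∈ A, y) =
      (-1) ^ (m % q) * ∑ D ∈ (univ.erase (0 : ZMod N)).powersetCard (m / q),
        AddMonoidAlgebra.single (q • ZMod.castHom hN (ZMod n') (∑ d ∈ D, d))
          (((-1) ^ (q + 1)) ^ D.card) := by
  have hq0 : 0 < q := Nat.pos_of_ne_zero (NeZero.ne q)
  have h := key_prod hn hN hn' hq hco hζ e he
  rw [← Finset.mul_prod_erase univ _ (Finset.mem_univ (0 : ZMod n)),
    ← Finset.mul_prod_erase univ _ (Finset.mem_univ (0 : ZMod N)), wt_zero] at h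
  have h1 : (1 + C (gd N n' q hN 0) * X ^ q : (AddMonoidAlgebra ℂ (ZMod n'))[X]) =
      (1 + C 1 * X) * ∑ i ∈ range q, (-X) ^ i := by
    have h2 := mul_neg_geom_sum (-X : (AddMonoidAlgebra ℂ (ZMod n'))[X]) q
    rw [sub_neg_eq_add] at h2
    rw [C_1, one_mul, h2, gd, map_zero, smul_zero, 
      neg_pow (X : (AddMonoidAlgebra ℂ (ZMod n'))[X]) q, sub_eq_add_neg]
    have h8 : (-1 : AddMonoidAlgebra ℂ (ZMod n')) = AddMonoidAlgebra.single 0 (-1) := by
      rw [AddMonoidAlgebra.single_neg]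
      rfl
    have h7 : (AddMonoidAlgebra.single (0 : ZMod n') ((-1 : ℂ) ^ (q + 1))) =
        (-1) ^ (q + 1) := by
      rw [h8, AddMonoidAlgebra.single_pow, smul_zero]
    rw [h7, C_pow, C_neg, C_1, pow_succ]
    ring
  rw [h1, mul_assoc] at h
  have hreg : IsLeftRegular (1 + C 1 * X : (AddMonoidAlgebra ℂ (ZMod n'))[X]) := by
    rw [C_1, one_mul, add_comm, ← C_1]
    exact (monic_X_add_C (1 : AddMonoidAlgebra ℂ (ZMod n'))).isRegular.left
  have h3 := hreg h
  have h4 := congrArg (fun P => P.coeff m) h3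
  rw [coeff_prod_one, coeff_prod_q _ _ hq0] at h4
  rw [Finset.sum_congr rfl (fun A _ => (wt_prod hn' e A).symm), h4]
  congr 1
  exact Finset.sum_congr rfl fun D _ => gd_prod hN D

/-- the twisted count -/
lemma key_count {n q N n' : ℕ} [NeZero n] [NeZero N] [NeZero q] [NeZero n'] (hn : n = N * q)
    (hN : n' ∣ N) (hn' : n' ∣ n) (hq : q ∣ n) (hco : Nat.Coprime n' q) {ζ : ℂ}
    (hζ : IsPrimitiveRoot ζ q) (e : AddChar (ZMod n) ℂ)
    (he : ∀ y : ZMod n, e y = ζ ^ (ZMod.castHom hq (ZMod q) y).val) (m : ℕ) :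
    ∃ s : ℂ, s ≠ 0 ∧ ∀ z' : ZMod n',
      ∑ z ∈ univ.filter (fun z : ZMod n => ZMod.castHom hn' (ZMod n') z = z'), (F n m z : ℂ) * e z =
      s * (((univ.erase (0 : ZMod N)).powersetCard (m / q)).filter
        (fun D => q • ZMod.castHom hN (ZMod n') (∑ d ∈ D, d) = z')).card := by
  classical
  refine ⟨(-1) ^ (m % q) * ((-1) ^ (q + 1)) ^ (m / q), ?_, ?_⟩
  · exact mul_ne_zero (pow_ne_zero _ (by norm_num)) (pow_ne_zero _ (pow_ne_zero _ (by norm_num)))
  intro z'
  have h := congrArg (fun P => P.coeff z') (key_coeff hn hN hn' hq hco hζ e he m)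
  have h1 : ((-1 : AddMonoidAlgebra ℂ (ZMod n')) ^ (m % q)) *
      ∑ D ∈ (univ.erase (0 : ZMod N)).powersetCard (m / q),
        AddMonoidAlgebra.single (q • ZMod.castHom hN (ZMod n') (∑ d ∈ D, d))
          (((-1 : ℂ) ^ (q + 1)) ^ D.card) =
      ∑ D ∈ (univ.erase (0 : ZMod N)).powersetCard (m / q),
        AddMonoidAlgebra.single (q • ZMod.castHom hN (ZMod n') (∑ d ∈ D, d))
          ((-1 : ℂ) ^ (m % q) * ((-1 : ℂ) ^ (q + 1)) ^ (m / q)) := by
    have h8 : (-1 : AddMonoidAlgebra ℂ (ZMod n')) = AddMonoidAlgebra.single 0 (-1) := by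
      rw [AddMonoidAlgebra.single_neg]
      rfl
    rw [Finset.mul_sum]
    refine Finset.sum_congr rfl fun D hD => ?_
    rw [(Finset.mem_powersetCard.1 hD).2, h8, AddMonoidAlgebra.single_pow, smul_zero,
      AddMonoidAlgebra.single_mul_single, zero_add]
  rw [h1, AddMonoidAlgebra.coeff_sum, AddMonoidAlgebra.coeff_sum, Finsupp.finsetSum_apply,
    Finsupp.finsetSum_apply] at h
  simp only [wt, AddMonoidAlgebra.coeff_single, Finsupp.single_apply] at h
  rw [← Finset.sum_filter, ← Finset.sum_filter, Finset.sum_const, nsmul_eq_mul] at h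
  rw [mul_comm (_ * _ : ℂ) _, ← h]
  -- the left side
  have h2 : ∀ z : ZMod n, (F n m z : ℂ) * e z =
      ∑ A ∈ ((univ.erase (0 : ZMod n)).powersetCard m).filter (fun A => ∑ y ∈ A, y = z),
        e (∑ y ∈ A, y) := by
    intro z
    rw [Finset.sum_congr rfl (g := fun _ => e z) (fun A hA => by
      rw [(Finset.mem_filter.1 hA).2]), Finset.sum_const, nsmul_eq_mul, F]
  rw [Finset.sum_congr rfl (fun z _ => h2 z)]
  rw [← Finset.sum_biUnion]
  · apply Finset.sum_congr _ (fun _ _ => rfl)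
    ext A
    simp only [Finset.mem_biUnion, Finset.mem_filter, Finset.mem_univ, true_and]
    constructor
    · rintro ⟨z, hz, hA, hAz⟩
      exact ⟨hA, by rw [hAz]; exact hz⟩
    · rintro ⟨hA, hz⟩
      exact ⟨_, hz, hA, rfl⟩
  · intro z _ w _ hzw
    rw [Function.onFun, Finset.disjoint_left]
    intro A hA hA'
    exact hzw ((Finset.mem_filter.1 hA).2.symm.trans (Finset.mem_filter.1 hA').2)

end Pool.Agent.R865.DS
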