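import Mathlib
import Pool.Agent.R865.DS.B

set_option autoImplicit false

/-! Units, the 1-design property, and its decomposition into local conditions. -/

namespace Pool.Agent.R865.DS
open Finset

variable {n : ℕ} [NeZero n]

lemma F_unit (m : ℕ) (u : (ZMod n)ˣ) (z : ZMod n) : F n m (u * z) = F n m z := by
  classical
  symm
  unfold F
  have hinj : ∀ v : (ZMod n)ˣ, Function.Injective (fun y : ZMod n => (v : ZMod n) * y) :=
    fun v a b h => by simpa using h
  apply Finset.card_nbij' (fun A => A.map ⟨fun y => (u : ZMod n) * y, hinj u⟩)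
    (fun A => A.map ⟨fun y => ((u⁻¹ : (ZMod n)ˣ) : ZMod n) * y, hinj u⁻¹⟩)
  · intro A hA
    simp only [Finset.coe_filter, Finset.mem_powersetCard, Set.mem_ofPred_eq] at hA ⊢
    refine ⟨⟨?_, by rw [Finset.card_map]; exact hA.1.2⟩, ?_⟩
    · intro y hy
      rw [Finset.mem_map] at hy
      obtain ⟨w, hw, rfl⟩ := hy
      have := hA.1.1 hw
      simp only [Finset.mem_erase, Finset.mem_univ, and_true, Function.Embedding.coeFn_mk] at this ⊢
      intro h
      apply this
      simpa using h
    · rw [Finset.sum_map]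
      simp only [Function.Embedding.coeFn_mk]
      rw [← Finset.mul_sum, hA.2]
  · intro A hA
    simp only [Finset.coe_filter, Finset.mem_powersetCard, Set.mem_ofPred_eq] at hA ⊢
    refine ⟨⟨?_, by rw [Finset.card_map]; exact hA.1.2⟩, ?_⟩
    · intro y hy
      rw [Finset.mem_map] at hy
      obtain ⟨w, hw, rfl⟩ := hy
      have := hA.1.1 hw
      simp only [Finset.mem_erase, Finset.mem_univ, and_true, Function.Embedding.coeFn_mk] at this ⊢
      intro h
      apply this
      simpa using h
    · rw [Finset.sum_map]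
      simp only [Function.Embedding.coeFn_mk]
      rw [← Finset.mul_sum, hA.2, ← mul_assoc, Units.inv_mul, one_mul]
  · intro A _
    simp only [Finset.map_map]
    convert Finset.map_refl
    ext y
    simp
  · intro A _
    simp only [Finset.map_map]
    convert Finset.map_refl
    ext y
    simp

/-- a shift which does not change the gcd with `n` -/
lemma unit_shift (m : ℕ) {p a n' i : ℕ} (hp : p.Prime) (hn : n = p ^ a * n') (hn' : ¬ p ∣ n')
    (hi : i ≤ a) (z t : ℕ) (hz : ¬ p ^ i ∣ z) :
    F n m ((z + n' * p ^ i * t : ℕ) : ZMod n) = F n m (z : ZMod n) := by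
  have hz0 : z ≠ 0 := by rintro rfl; exact hz (dvd_zero _)
  obtain ⟨j, z1, hz1, hzj⟩ := Nat.exists_eq_pow_mul_and_not_dvd hz0 p hp.ne_one
  have hji : j < i := by
    by_contra hcon
    push Not at hcon
    apply hz
    rw [hzj]
    exact (pow_dvd_pow p hcon).trans (dvd_mul_right _ _)
  have hco : Nat.Coprime z1 (p ^ a) :=
    Nat.Coprime.pow_right _ ((Nat.Prime.coprime_iff_not_dvd hp).2 hz1).symm
  obtain ⟨s, hs⟩ : ∃ s : ℕ, z1 * s ≡ t [MOD p ^ a] := by
    have hu : IsUnit (z1 : ZMod (p ^ a)) := (ZMod.isUnit_iff_coprime _ _).2 hco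
    obtain ⟨v, hv⟩ := hu
    have : NeZero (p ^ a) := ⟨pow_ne_zero _ hp.ne_zero⟩
    refine ⟨((v⁻¹ : (ZMod (p ^ a))ˣ) * (t : ZMod (p ^ a))).val, ?_⟩
    rw [← ZMod.natCast_eq_natCast_iff, Nat.cast_mul, ZMod.natCast_zmod_val, ← hv, ← mul_assoc,
      Units.mul_inv, one_mul]
  set u : ℕ := 1 + n' * p ^ (i - j) * s with hu
  have hcop : Nat.Coprime u n := by
    rw [hn]
    have h1 : Nat.Coprime u p := by
      rw [Nat.coprime_comm, Nat.Prime.coprime_iff_not_dvd hp, hu]
      intro h
      have h2 : p ∣ n' * p ^ (i - j) * s :=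
        Dvd.dvd.mul_right (Dvd.dvd.mul_left (dvd_pow_self p (by omega)) _) _
      have h3 := (Nat.dvd_add_left h2).1 h
      exact hp.one_lt.ne' (Nat.dvd_one.1 h3)
    have h2 : Nat.Coprime u n' := by
      rw [hu, mul_assoc]
      exact (Nat.coprime_add_mul_left_left 1 n' _).2 (Nat.coprime_one_left n')
    exact (Nat.Coprime.pow_right a h1).mul_right h2
  have h3 : ((z + n' * p ^ i * t : ℕ) : ZMod n) = (ZMod.unitOfCoprime u hcop : (ZMod n)ˣ) *
      (z : ZMod n) := by
    rw [ZMod.coe_unitOfCoprime, ← Nat.cast_mul, ZMod.natCast_eq_natCast_iff]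
    have h4 : u * z = z + n' * p ^ i * (z1 * s) := by
      have h5 : p ^ i = p ^ (i - j) * p ^ j := by rw [← pow_add]; congr 1; omega
      rw [hu, h5, hzj]
      ring
    rw [h4]
    apply Nat.ModEq.add_left
    rw [hn]
    have h6 : n' * p ^ i * t = n' * (p ^ i * t) := by ring
    have h7 : n' * p ^ i * (z1 * s) = n' * (p ^ i * (z1 * s)) := by ring
    rw [h6, h7, mul_comm (p ^ a) n']
    apply Nat.ModEq.mul_left'
    exact (hs.symm).mul_left _
  rw [h3, F_unit]

/-- the blocks: the `k`-subsets with sum `x` -/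
def blocks (n k : ℕ) [NeZero n] (x : ZMod n) : Finset (Finset (ZMod n)) :=
  ((univ : Finset (ZMod n)).powersetCard k).filter (fun T => ∑ t ∈ T, t = x)

lemma deg_eq {k : ℕ} (hk : 1 ≤ k) (x y : ZMod n) :
    ((blocks n k x).filter (fun T => y ∈ T)).card = F n (k - 1) (x - k * y) := by
  classical
  unfold blocks F
  apply Finset.card_nbij' (fun T => (T.map (Equiv.subRight y).toEmbedding).erase 0)
    (fun A => (insert 0 A).map (Equiv.addRight y).toEmbedding)
  · intro T hT
    simp only [Finset.coe_filter, Finset.mem_filter, Finset.mem_powersetCard,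
      Set.mem_ofPred_eq] at hT ⊢
    obtain ⟨⟨⟨-, hTk⟩, hTs⟩, hyT⟩ := hT
    have h0 : (0 : ZMod n) ∈ T.map (Equiv.subRight y).toEmbedding := by
      rw [Finset.mem_map]
      exact ⟨y, hyT, by simp⟩
    refine ⟨⟨Finset.erase_subset_erase _ (Finset.subset_univ _), ?_⟩, ?_⟩
    · rw [Finset.card_erase_of_mem h0, Finset.card_map, hTk]
    · have h1 := Finset.add_sum_erase (T.map (Equiv.subRight y).toEmbedding) (fun t => t) h0
      simp only [zero_add] at h1
      rw [h1, Finset.sum_map]
      simp only [Equiv.coe_toEmbedding, Equiv.subRight_apply]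
      rw [Finset.sum_sub_distrib, Finset.sum_const, hTs, hTk, nsmul_eq_mul]
  · intro A hA
    simp only [Finset.coe_filter, Finset.mem_filter, Finset.mem_powersetCard,
      Set.mem_ofPred_eq] at hA ⊢
    obtain ⟨⟨hA0, hAk⟩, hAs⟩ := hA
    have h0 : (0 : ZMod n) ∉ A := fun h => (Finset.mem_erase.1 (hA0 h)).1 rfl
    refine ⟨⟨⟨Finset.subset_univ _, ?_⟩, ?_⟩, ?_⟩
    · rw [Finset.card_map, Finset.card_insert_of_notMem h0, hAk]; omega
    · rw [Finset.sum_map]
      simp only [Equiv.coe_toEmbedding, Equiv.coe_addRight]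
      rw [Finset.sum_add_distrib, Finset.sum_const, Finset.sum_insert h0, hAs, zero_add,
        Finset.card_insert_of_notMem h0, hAk, nsmul_eq_mul, Nat.sub_add_cancel hk]
      ring
    · rw [Finset.mem_map]
      exact ⟨0, Finset.mem_insert_self _ _, by simp⟩
  · intro T hT
    simp only [Finset.coe_filter, Finset.mem_filter, Finset.mem_powersetCard,
      Set.mem_ofPred_eq] at hT
    obtain ⟨⟨⟨-, hTk⟩, hTs⟩, hyT⟩ := hT
    have h0 : (0 : ZMod n) ∈ T.map (Equiv.subRight y).toEmbedding := by
      rw [Finset.mem_map]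
      exact ⟨y, hyT, by simp⟩
    simp only
    rw [Finset.insert_erase h0, Finset.map_map]
    convert Finset.map_refl
    ext w
    simp
  · intro A hA
    simp only [Finset.coe_filter, Finset.mem_powersetCard, Set.mem_ofPred_eq] at hA
    obtain ⟨⟨hA0, hAk⟩, hAs⟩ := hA
    have h0 : (0 : ZMod n) ∉ A := fun h => (Finset.mem_erase.1 (hA0 h)).1 rfl
    simp only
    rw [Finset.map_map]
    have : ((Equiv.addRight y).toEmbedding.trans (Equiv.subRight y).toEmbedding) =
        Function.Embedding.refl (ZMod n) := by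
      ext w
      simp
    rw [this, Finset.map_refl, Finset.erase_insert h0]

/-- sums of `k`-subsets of `{1, …, k + m}` -/
lemma subset_sums (k : ℕ) : ∀ m s : ℕ, s ≤ k * m →
    ∃ T : Finset ℕ, T ⊆ Finset.Icc 1 (k + m) ∧ T.card = k ∧
      ∑ t ∈ T, t = k * (k + 1) / 2 + s := by
  induction k with
  | zero =>
    intro m s hs
    refine ⟨∅, by simp, rfl, ?_⟩
    simp only [Nat.zero_mul, Nat.le_zero] at hs
    simp [hs]
  | succ k ih =>
    intro m s hs
    obtain ⟨T, hT1, hT2, hT3⟩ := ih (min s m) (s - min s m) (by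
      rcases le_total s m with h | h
      · rw [min_eq_left h, Nat.sub_self]; exact Nat.zero_le _
      · rw [min_eq_right h]
        have : (k + 1) * m = k * m + m := by ring
        omega)
    have hnot : (k + 1 + min s m) ∉ T := by
      intro h
      have := (Finset.mem_Icc.1 (hT1 h)).2
      omega
    refine ⟨insert (k + 1 + min s m) T, ?_, ?_, ?_⟩
    · intro t ht
      rw [Finset.mem_insert] at ht
      rw [Finset.mem_Icc]
      rcases ht with rfl | ht
      · constructor
        · omega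
        · have := min_le_right s m
          omega
      · have h1 := Finset.mem_Icc.1 (hT1 ht)
        have := min_le_right s m
        omega
    · rw [Finset.card_insert_of_notMem hnot, hT2]
    · rw [Finset.sum_insert hnot, hT3]
      have h1 : (k + 1) * (k + 1 + 1) / 2 = k * (k + 1) / 2 + (k + 1) := by
        have : (k + 1) * (k + 1 + 1) = k * (k + 1) + (k + 1) * 2 := by ring
        rw [this, Nat.add_mul_div_right _ _ (by norm_num)]
      have h2 := min_le_left s m
      rw [h1]
      omega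

/-- all residues are sums of `κ`-subsets of `ZMod N` minus zero, in the middle range -/
lemma cover {N κ : ℕ} [NeZero N] (h1 : N ≤ κ * (N - 1 - κ) + 1) (h2 : κ ≤ N - 1) (r : ZMod N) :
    ∃ D ∈ (univ.erase (0 : ZMod N)).powersetCard κ, ∑ d ∈ D, d = r := by
  classical
  have hN : 0 < N := Nat.pos_of_ne_zero (NeZero.ne N)
  set s : ℕ := ((r - ((κ * (κ + 1) / 2 : ℕ) : ZMod N)) : ZMod N).val with hs
  have hsN : s < N := ZMod.val_lt _
  obtain ⟨T, hT1, hT2, hT3⟩ := subset_sums κ (N - 1 - κ) s (by omega)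
  have hIcc : κ + (N - 1 - κ) = N - 1 := by omega
  rw [hIcc] at hT1
  have hinj : Set.InjOn (fun t : ℕ => (t : ZMod N)) T := by
    intro a ha b hb hab
    have ha' := Finset.mem_Icc.1 (hT1 ha)
    have hb' := Finset.mem_Icc.1 (hT1 hb)
    have h := (ZMod.natCast_eq_natCast_iff _ _ _).1 hab
    exact Nat.ModEq.eq_of_lt_of_lt h (by omega) (by omega)
  refine ⟨T.image (fun t : ℕ => (t : ZMod N)), ?_, ?_⟩
  · rw [Finset.mem_powersetCard]
    refine ⟨?_, ?_⟩
    · intro d hd
      rw [Finset.mem_image] at hd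
      obtain ⟨t, ht, rfl⟩ := hd
      rw [Finset.mem_erase]
      refine ⟨?_, Finset.mem_univ _⟩
      have ht' := Finset.mem_Icc.1 (hT1 ht)
      intro h
      rw [ZMod.natCast_eq_zero_iff] at h
      have := Nat.le_of_dvd (by omega) h
      omega
    · rw [Finset.card_image_of_injOn hinj, hT2]
  · rw [Finset.sum_image hinj, ← Nat.cast_sum, hT3, Nat.cast_add, hs, ZMod.natCast_zmod_val]
    ring

lemma blocks_nonempty {k : ℕ} (hk : 1 ≤ k) (hkn : k < n) (x : ZMod n) :
    (blocks n k x).Nonempty := by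
  classical
  set s : ℕ := ((x - ((k * (k + 1) / 2 : ℕ) : ZMod n)) : ZMod n).val with hs
  have hsn : s < n := ZMod.val_lt _
  have h1 : n - 1 ≤ k * (n - k) := by
    obtain ⟨d, rfl⟩ := Nat.exists_eq_add_of_lt hkn
    have : k + d + 1 - k = d + 1 := by omega
    rw [this, Nat.add_sub_cancel, Nat.mul_add, Nat.mul_one]
    have := Nat.mul_le_mul_right d hk
    omega
  obtain ⟨T, hT1, hT2, hT3⟩ := subset_sums k (n - k) s (by omega)
  have hIcc : k + (n - k) = n := by omega
  rw [hIcc] at hT1
  have hinj : Set.InjOn (fun t : ℕ => (t : ZMod n)) T := by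
    intro a ha b hb hab
    have ha' := Finset.mem_Icc.1 (hT1 ha)
    have hb' := Finset.mem_Icc.1 (hT1 hb)
    have h := (ZMod.natCast_eq_natCast_iff _ _ _).1 hab
    rcases eq_or_ne a n with ha2 | ha2
    · rcases eq_or_ne b n with hb2 | hb2
      · rw [ha2, hb2]
      · exfalso
        rw [ha2] at h
        have h3 : b ≡ 0 [MOD n] := h.symm.trans (by simp [Nat.ModEq])
        have := Nat.le_of_dvd (by omega) ((Nat.modEq_zero_iff_dvd).1 h3)
        omega
    · rcases eq_or_ne b n with hb2 | hb2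
      · exfalso
        rw [hb2] at h
        have h3 : a ≡ 0 [MOD n] := h.trans (by simp [Nat.ModEq])
        have := Nat.le_of_dvd (by omega) ((Nat.modEq_zero_iff_dvd).1 h3)
        omega
      · exact Nat.ModEq.eq_of_lt_of_lt h (by omega) (by omega)
  refine ⟨T.image (fun t : ℕ => (t : ZMod n)), ?_⟩
  rw [blocks, Finset.mem_filter, Finset.mem_powersetCard]
  refine ⟨⟨Finset.subset_univ _, by rw [Finset.card_image_of_injOn hinj, hT2]⟩, ?_⟩
  rw [Finset.sum_image hinj, ← Nat.cast_sum, hT3, Nat.cast_add, hs, ZMod.natCast_zmod_val]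
  ring

end Pool.Agent.R865.DS
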