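import Mathlib
import Pool.Agent.R865.DS.C

set_option autoImplicit false

/-! The 1-design property and its decomposition into local conditions. -/

namespace Pool.Agent.R865.DS
open Finset

variable {n : ℕ} [NeZero n]

/-- `(ℤ_n, B_k^x)` is a 1-design -/
def IsOneDesign (n k : ℕ) [NeZero n] (x : ZMod n) : Prop :=
  (blocks n k x).Nonempty ∧
    ∃ r : ℕ, ∀ y : ZMod n, ((blocks n k x).filter (fun T => y ∈ T)).card = r

lemma design_iff {k : ℕ} (hk : 1 ≤ k) (hkn : k < n) (x : ℕ) :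
    IsOneDesign n k (x : ZMod n) ↔
      ∀ z : ℕ, z ≡ x [MOD Nat.gcd k n] → F n (k - 1) (z : ZMod n) = F n (k - 1) (x : ZMod n) := by
  constructor
  · rintro ⟨-, r, hr⟩ z hz
    have h1 : ∀ y : ZMod n, F n (k - 1) ((x : ZMod n) - k * y) = r := fun y => by
      rw [← deg_eq hk, hr]
    have h2 : (Nat.gcd k n : ℤ) ∣ (x : ℤ) - z := (Nat.modEq_iff_dvd).1 hz
    obtain ⟨t, ht⟩ := h2
    have h3 := Nat.gcd_eq_gcd_ab k n
    have h4 : (z : ZMod n) = (x : ZMod n) - k * ((Nat.gcdA k n * t : ℤ) : ZMod n) := by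
      have h5 : (x : ℤ) - z = k * (Nat.gcdA k n * t) + n * (Nat.gcdB k n * t) := by
        rw [ht, h3]; ring
      have h6 := congrArg (fun w : ℤ => (w : ZMod n)) h5
      simp only [Int.cast_sub, Int.cast_natCast, Int.cast_add, Int.cast_mul,
        CharP.cast_eq_zero, zero_mul, add_zero] at h6
      rw [Int.cast_mul, ← h6]
      ring
    rw [h4, h1]
    have h7 := h1 0
    rw [mul_zero, sub_zero] at h7
    rw [h7]
  · intro h
    refine ⟨blocks_nonempty hk hkn _, F n (k - 1) (x : ZMod n), fun y => ?_⟩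
    rw [deg_eq hk]
    have h1 : ((x : ZMod n) - k * y) = (((x : ZMod n) - k * y).val : ZMod n) :=
      (ZMod.natCast_zmod_val _).symm
    rw [h1]
    apply h
    have hg : Nat.gcd k n ∣ n := Nat.gcd_dvd_right k n
    rw [← ZMod.natCast_eq_natCast_iff]
    have h2 := congrArg (ZMod.castHom hg (ZMod (Nat.gcd k n))) h1
    rw [map_natCast] at h2
    rw [← h2, map_sub, map_mul, map_natCast, map_natCast]
    have h3 : ((k : ℕ) : ZMod (Nat.gcd k n)) = 0 :=
      (ZMod.natCast_eq_zero_iff _ _).2 (Nat.gcd_dvd_left k n)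
    rw [h3, zero_mul, sub_zero]

/-- `h` is a period of the count on the coset of `x` -/
def Loc (n m g x h : ℕ) [NeZero n] : Prop :=
  ∀ z : ℕ, z ≡ x [MOD g] → F n m ((z + h : ℕ) : ZMod n) = F n m (z : ZMod n)

/-- the subgroup of periods -/
def Per (n m g x : ℕ) [NeZero n] : AddSubgroup ℤ where
  carrier := {d | (g : ℤ) ∣ d ∧ ∀ z : ℤ, z ≡ x [ZMOD g] →
    F n m ((z + d : ℤ) : ZMod n) = F n m (z : ZMod n)}
  add_mem' := by
    rintro a b ⟨ha, ha'⟩ ⟨hb, hb'⟩
    refine ⟨dvd_add ha hb, fun z hz => ?_⟩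
    rw [← add_assoc, hb' (z + a), ha' z hz]
    have h0 : a ≡ 0 [ZMOD g] := (Int.modEq_zero_iff_dvd).2 ha
    calc z + a ≡ z + 0 [ZMOD g] := Int.ModEq.add_left z h0
      _ = z := add_zero z
      _ ≡ x [ZMOD g] := hz
  zero_mem' := ⟨dvd_zero _, fun z _ => by rw [add_zero]⟩
  neg_mem' := by
    rintro a ⟨ha, ha'⟩
    refine ⟨(dvd_neg).2 ha, fun z hz => ?_⟩
    have h0 : (-a) ≡ 0 [ZMOD g] := (Int.modEq_zero_iff_dvd).2 ((dvd_neg).2 ha)
    have h1 : z + -a ≡ x [ZMOD g] := by
      calc z + -a ≡ z + 0 [ZMOD g] := Int.ModEq.add_left z h0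
        _ = z := add_zero z
        _ ≡ x [ZMOD g] := hz
    have h2 := ha' (z + -a) h1
    rw [neg_add_cancel_right] at h2
    exact h2.symm

lemma int_F (m : ℕ) (z : ℤ) : (z : ZMod n) = (((z % n).toNat : ℕ) : ZMod n) := by
  have hn : (n : ℤ) ≠ 0 := by exact_mod_cast NeZero.ne n
  have h1 : (((z % n).toNat : ℕ) : ℤ) = z % n := Int.toNat_of_nonneg (Int.emod_nonneg _ hn)
  have h2 : (((z % n).toNat : ℕ) : ZMod n) = ((z % n : ℤ) : ZMod n) := by
    rw [← h1, Int.cast_natCast]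
    rw [Int.toNat_natCast]
  rw [h2]
  simp

lemma loc_mem {m g x h : ℕ} (hg : g ∣ n) (hgh : g ∣ h) (hl : Loc n m g x h) :
    (h : ℤ) ∈ Per n m g x := by
  refine ⟨by exact_mod_cast hgh, fun z hz => ?_⟩
  have h1 := int_F (n := n) m z
  rw [Int.cast_add, Int.cast_natCast, h1]
  have h2 := hl (z % n).toNat (by
    rw [← Int.natCast_modEq_iff]
    have hn : (n : ℤ) ≠ 0 := by exact_mod_cast NeZero.ne n
    have h1 : (((z % n).toNat : ℕ) : ℤ) = z % n := Int.toNat_of_nonneg (Int.emod_nonneg _ hn)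
    rw [h1]
    have h3 : z % n ≡ z [ZMOD g] := (Int.mod_modEq z n).of_dvd (by exact_mod_cast hg)
    exact h3.trans hz)
  rw [← h2, Nat.cast_add]

/-- the local data of a prime -/
structure LD (n k p a v n' k' : ℕ) : Prop where
  hp : p.Prime
  hn : n = p ^ a * n'
  hn' : ¬ p ∣ n'
  hk : k = p ^ v * k'
  hk' : ¬ p ∣ k'
  hv : v < a

lemma LD.gcd_dvd {n k p a v n' k' : ℕ} (L : LD n k p a v n' k') :
    Nat.gcd k n ∣ n' * p ^ v := by
  have hp := L.hp
  rw [L.hk, L.hn]
  have e : p ^ a * n' = p ^ v * (p ^ (a - v) * n') := by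
    rw [← mul_assoc, ← pow_add]; congr 2; have := L.hv; omega
  rw [e, Nat.gcd_mul_left, mul_comm n' (p ^ v)]
  apply mul_dvd_mul_left
  have hco : Nat.Coprime k' (p ^ (a - v)) :=
    Nat.Coprime.pow_right _ ((Nat.Prime.coprime_iff_not_dvd hp).2 L.hk').symm
  rw [Nat.Coprime.gcd_mul_left_cancel_right n' hco.symm]
  exact Nat.gcd_dvd_right _ _

lemma const_iff_loc {m k x : ℕ} (hk : k ≠ 0) :
    (∀ z : ℕ, z ≡ x [MOD Nat.gcd k n] → F n m (z : ZMod n) = F n m (x : ZMod n)) ↔
      ∀ p a v n' k' : ℕ, LD n k p a v n' k' → Loc n m (Nat.gcd k n) x (n' * p ^ v) := by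
  constructor
  · intro h p a v n' k' L z hz
    rw [h z hz, h]
    have h1 := (Nat.modEq_zero_iff_dvd).2 L.gcd_dvd
    calc z + n' * p ^ v ≡ z + 0 [MOD Nat.gcd k n] := Nat.ModEq.add_left z h1
      _ = z := add_zero z
      _ ≡ x [MOD Nat.gcd k n] := hz
  · intro h
    have hn0 : n ≠ 0 := NeZero.ne n
    obtain ⟨e, he⟩ := Int.subgroup_cyclic (Per n m (Nat.gcd k n) x)
    have hmem : ∀ d : ℤ, d ∈ Per n m (Nat.gcd k n) x ↔ e ∣ d := by
      intro d
      rw [he, ← AddSubgroup.zmultiples_eq_closure, Int.mem_zmultiples_iff]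
    have hen : e.natAbs ∣ n := by
      rw [← Int.natCast_dvd_natCast, Int.natAbs_dvd]
      rw [← hmem]
      apply loc_mem (Nat.gcd_dvd_right k n) (Nat.gcd_dvd_right k n)
      intro z _
      rw [Nat.cast_add, ZMod.natCast_self, add_zero]
    have heg : e.natAbs ∣ Nat.gcd k n := by
      rw [Nat.dvd_iff_prime_pow_dvd_dvd]
      intro l j hl hlj
      apply Nat.dvd_gcd _ (hlj.trans hen)
      by_cases hv : k.factorization l < n.factorization l
      · have hkl := Nat.ordProj_mul_ordCompl_eq_self k l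
        have hnl := Nat.ordProj_mul_ordCompl_eq_self n l
        have L : LD n k l (n.factorization l) (k.factorization l)
            (n / l ^ n.factorization l) (k / l ^ k.factorization l) :=
          ⟨hl, hnl.symm, Nat.not_dvd_ordCompl hl hn0, hkl.symm, Nat.not_dvd_ordCompl hl hk, hv⟩
        have h1 := loc_mem (Nat.gcd_dvd_right k n) L.gcd_dvd (h _ _ _ _ _ L)
        rw [hmem] at h1
        have h2 : e.natAbs ∣ (n / l ^ n.factorization l) * l ^ k.factorization l := by
          rw [← Int.natCast_dvd_natCast, Int.natAbs_dvd]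
          exact h1
        have h3 : l ^ j ∣ l ^ k.factorization l := by
          refine Nat.Coprime.dvd_of_dvd_mul_left ?_ (hlj.trans h2)
          exact Nat.Coprime.pow_left _ ((Nat.Prime.coprime_iff_not_dvd hl).2 L.hn')
        exact h3.trans (Nat.ordProj_dvd k l)
      · push Not at hv
        have h1 : l ^ j ∣ n := hlj.trans hen
        have h2 := (Nat.Prime.pow_dvd_iff_le_factorization hl hn0).1 h1
        exact (Nat.Prime.pow_dvd_iff_le_factorization hl hk).2 (h2.trans hv)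
    intro z hz
    have h1 : ((z : ℤ) - x) ∈ Per n m (Nat.gcd k n) x := by
      rw [hmem]
      have h2 : (Nat.gcd k n : ℤ) ∣ (z : ℤ) - x := by
        have := (Nat.modEq_iff_dvd).1 hz.symm
        exact this
      refine dvd_trans ?_ h2
      rw [← Int.natAbs_dvd]
      exact_mod_cast heg
    have h2 := h1.2 x (Int.ModEq.refl _)
    rw [show (x : ℤ) + ((z : ℤ) - x) = z by ring, Int.cast_natCast, Int.cast_natCast] at h2
    exact h2

end Pool.Agent.R865.DS
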