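import Mathlib
import Pool.Agent.R865.DS.D

set_option autoImplicit false

/-! The local conditions in terms of subset sums. -/

namespace Pool.Agent.R865.DS
open Finset Polynomial

/-- no `κ`-subset of the nonzero elements of `ZMod N` has `q` times its sum `≡ x` modulo `g'` -/
def NoSol (N κ q g' x : ℕ) [NeZero N] (hg : g' ∣ N) : Prop :=
  ∀ D ∈ (univ.erase (0 : ZMod N)).powersetCard κ,
    q • ZMod.castHom hg (ZMod g') (∑ d ∈ D, d) ≠ (x : ZMod g')

lemma LD.n'_ne {n k p a v n' k' : ℕ} [NeZero n] (L : LD n k p a v n' k') : n' ≠ 0 := by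
  rintro rfl
  exact NeZero.ne n (by rw [L.hn, mul_zero])

lemma LD.gcd_eq {n k p a v n' k' : ℕ} (L : LD n k p a v n' k') :
    Nat.gcd k n = p ^ v * Nat.gcd k n' := by
  have hp := L.hp
  have e : p ^ a * n' = p ^ v * (p ^ (a - v) * n') := by
    rw [← mul_assoc, ← pow_add]; congr 2; have := L.hv; omega
  have hco : Nat.Coprime k' (p ^ (a - v)) :=
    Nat.Coprime.pow_right _ ((Nat.Prime.coprime_iff_not_dvd hp).2 L.hk').symm
  have hco2 : Nat.Coprime (p ^ v) n' :=
    Nat.Coprime.pow_left _ ((Nat.Prime.coprime_iff_not_dvd hp).2 L.hn')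
  rw [L.hn, e, L.hk, Nat.gcd_mul_left, Nat.Coprime.gcd_mul_left_cancel_right n' hco.symm,
    Nat.Coprime.gcd_mul_left_cancel k' hco2]

lemma LD.modEq {n k p a v n' k' : ℕ} (L : LD n k p a v n' k') {z x : ℕ} (hz : p ^ v ∣ z)
    (hx : p ^ v ∣ x) (h : z ≡ x [MOD Nat.gcd k n']) : z ≡ x [MOD Nat.gcd k n] := by
  rw [L.gcd_eq]
  have hco : Nat.Coprime (p ^ v) (Nat.gcd k n') :=
    Nat.Coprime.coprime_dvd_right (Nat.gcd_dvd_right k n')
      (Nat.Coprime.pow_left _ ((Nat.Prime.coprime_iff_not_dvd L.hp).2 L.hn'))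
  rw [← Nat.modEq_and_modEq_iff_modEq_mul hco]
  exact ⟨((Nat.modEq_zero_iff_dvd).2 hz).trans ((Nat.modEq_zero_iff_dvd).2 hx).symm, h⟩

lemma char_val {n q : ℕ} [NeZero n] [NeZero q] (hq : q ∣ n) {ζ : ℂ} (hζ : IsPrimitiveRoot ζ q)
    (hζn : ζ ^ n = 1) (y : ZMod n) :
    AddChar.zmodChar n hζn y = ζ ^ (ZMod.castHom hq (ZMod q) y).val := by
  rw [AddChar.zmodChar_apply]
  have h1 : ZMod.castHom hq (ZMod q) y = ((y.val : ℕ) : ZMod q) := by
    conv_lhs => rw [← ZMod.natCast_zmod_val y]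
    rw [map_natCast]
  rw [h1, ZMod.val_natCast]
  exact pow_eq_pow_mod _ hζ.pow_eq_one

theorem necc {n k p a v n' k' : ℕ} [NeZero n] (L : LD n k p a v n' k') (m x : ℕ)
    (hx : p ^ v ∣ x) [NeZero (p ^ (a - (v + 1)) * n')]
    (hg : Nat.gcd k n' ∣ p ^ (a - (v + 1)) * n')
    (hl : Loc n m (Nat.gcd k n) x (n' * p ^ v)) :
    NoSol (p ^ (a - (v + 1)) * n') (m / p ^ (v + 1)) (p ^ (v + 1)) (Nat.gcd k n') x hg := by
  classical
  intro D hD hcon
  have hp := L.hp
  have hv := L.hv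
  have : NeZero n' := ⟨L.n'_ne⟩
  have : NeZero (p ^ (v + 1)) := ⟨pow_ne_zero _ hp.ne_zero⟩
  set q := p ^ (v + 1) with hqd
  have hnN : n = p ^ (a - (v + 1)) * n' * q := by
    rw [hqd, L.hn]
    have : p ^ a = p ^ (a - (v + 1)) * p ^ (v + 1) := by rw [← pow_add]; congr 1; omega
    rw [this]; ring
  have hN' : n' ∣ p ^ (a - (v + 1)) * n' := dvd_mul_left _ _
  have hn' : n' ∣ n := by rw [L.hn]; exact dvd_mul_left _ _
  have hq : q ∣ n := by rw [hnN]; exact dvd_mul_left _ _
  have hco : Nat.Coprime n' q :=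
    Nat.Coprime.pow_right _ ((Nat.Prime.coprime_iff_not_dvd hp).2 L.hn').symm
  have hζ := Complex.isPrimitiveRoot_exp q (NeZero.ne q)
  set ζ := Complex.exp (2 * Real.pi * Complex.I / q) with hζd
  have hζn : ζ ^ n = 1 := by
    obtain ⟨w, hw⟩ := hq
    rw [hw, pow_mul, hζ.pow_eq_one, one_pow]
  set e := AddChar.zmodChar n hζn with he
  obtain ⟨s, hs, hcount⟩ := key_count hnN hN' hn' hq hco hζ e (char_val hq hζ hζn) m
  set z' : ZMod n' := q • ZMod.castHom hN' (ZMod n') (∑ d ∈ D, d) with hz'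
  have hE := hcount z'
  -- the right side is not zero
  have hpos : 0 < (((univ.erase (0 : ZMod (p ^ (a - (v + 1)) * n'))).powersetCard (m / q)).filter
        (fun D => q • ZMod.castHom hN' (ZMod n') (∑ d ∈ D, d) = z')).card := by
    rw [Finset.card_pos]
    exact ⟨D, Finset.mem_filter.2 ⟨hD, rfl⟩⟩
  have hne : s * ((((univ.erase (0 : ZMod (p ^ (a - (v + 1)) * n'))).powersetCard (m / q)).filter
        (fun D => q • ZMod.castHom hN' (ZMod n') (∑ d ∈ D, d) = z')).card : ℂ) ≠ 0 :=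
    mul_ne_zero hs (by exact_mod_cast hpos.ne')
  apply hne
  rw [← hE]
  -- the sum vanishes
  set E : ℂ := ∑ z ∈ univ.filter (fun z : ZMod n => ZMod.castHom hn' (ZMod n') z = z'),
    (F n m z : ℂ) * e z with hEd
  set h : ZMod n := ((n' * p ^ v : ℕ) : ZMod n) with hh
  have hh0 : ZMod.castHom hn' (ZMod n') h = 0 := by
    rw [hh, map_natCast, ZMod.natCast_eq_zero_iff]
    exact dvd_mul_right _ _
  have heh : e h ≠ 1 := by
    rw [he, hh, AddChar.zmodChar_apply', Ne, hζ.pow_eq_one_iff_dvd, hqd, pow_succ]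
    intro hd
    rw [mul_comm n' (p ^ v)] at hd
    exact L.hn' (Nat.dvd_of_mul_dvd_mul_left (pow_pos hp.pos v) hd)
  have hx' : ZMod.castHom (Nat.gcd_dvd_right k n') (ZMod (Nat.gcd k n')) z' = (x : ZMod _) := by
    rw [← hcon, hz', nsmul_eq_mul, map_mul, map_natCast, nsmul_eq_mul]
    congr 1
    rw [← RingHom.comp_apply]
    congr 1
    exact RingHom.ext_zmod _ _
  have hFz : ∀ z : ZMod n, ZMod.castHom hn' (ZMod n') z = z' → F n m (z + h) = F n m z := by
    intro z hz
    have hzv : z = ((z.val : ℕ) : ZMod n) := (ZMod.natCast_zmod_val z).symm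
    have e1 : z + h = ((z.val + n' * p ^ v : ℕ) : ZMod n) := by
      rw [Nat.cast_add, ← hzv, hh]
    by_cases hdv : p ^ v ∣ z.val
    · have h2 : z.val ≡ x [MOD Nat.gcd k n] := by
        apply L.modEq hdv hx
        rw [← ZMod.natCast_eq_natCast_iff, ← hx', ← hz]
        rw [← RingHom.comp_apply]
        conv_rhs => rw [hzv]
        rw [map_natCast]
      have h3 := hl z.val h2
      rw [e1, h3, ← hzv]
    · have h3 := unit_shift (n := n) m hp L.hn L.hn' hv.le z.val 1 hdv
      rw [mul_one] at h3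
      rw [e1, h3, ← hzv]
  have hE2 : E = e h * E := by
    have h1 : ∑ z ∈ univ.filter (fun z : ZMod n => ZMod.castHom hn' (ZMod n') z = z'),
        (F n m (z + h) : ℂ) * e (z + h) = E := by
      apply Finset.sum_equiv (Equiv.addRight h)
      · intro z
        simp only [Finset.mem_filter, Finset.mem_univ, true_and, Equiv.coe_addRight]
        rw [map_add, hh0, add_zero]
      · intro z _
        rfl
    have h2 : ∑ z ∈ univ.filter (fun z : ZMod n => ZMod.castHom hn' (ZMod n') z = z'),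
        (F n m (z + h) : ℂ) * e (z + h) = e h * E := by
      rw [hEd, Finset.mul_sum]
      refine (Finset.sum_congr rfl fun z hz => ?_)
      rw [hFz z (Finset.mem_filter.1 hz).2, AddChar.map_add_eq_mul]
      ring
    exact h1.symm.trans h2
  have h3 : (1 - e h) * E = 0 := by linear_combination hE2
  rcases mul_eq_zero.1 h3 with h4 | h4
  · exact absurd (sub_eq_zero.1 h4).symm heh
  · exact h4

lemma fiber_sum {n P n' : ℕ} [NeZero n] (hP : 0 < P) (hn0 : 0 < n') (hn : n = P * n')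
    (hn' : n' ∣ n) (z : ℕ) (φ : ZMod n → ℂ) :
    ∑ j ∈ range P, φ ((z + n' * j : ℕ) : ZMod n) =
      ∑ w ∈ univ.filter (fun w : ZMod n => ZMod.castHom hn' (ZMod n') w = (z : ZMod n')), φ w := by
  classical
  apply Finset.sum_bij (fun j _ => ((z + n' * j : ℕ) : ZMod n))
  · intro j _
    rw [Finset.mem_filter]
    refine ⟨Finset.mem_univ _, ?_⟩
    rw [map_natCast, Nat.cast_add, Nat.cast_mul, ZMod.natCast_self, zero_mul, add_zero]
  · intro j hj i hi h
    rw [ZMod.natCast_eq_natCast_iff] at h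
    have h2 : n' * j ≡ n' * i [MOD n] := Nat.ModEq.add_left_cancel' z h
    rw [hn, mul_comm P n'] at h2
    have h3 := Nat.ModEq.mul_left_cancel' hn0.ne' h2
    exact Nat.ModEq.eq_of_lt_of_lt h3 (Finset.mem_range.1 hj) (Finset.mem_range.1 hi)
  · intro w hw
    have hw2 := (Finset.mem_filter.1 hw).2
    have h1 : ((w.val : ℕ) : ZMod n') = (z : ZMod n') := by
      rw [← hw2]
      conv_rhs => rw [← ZMod.natCast_zmod_val w]
      rw [map_natCast]
    rw [ZMod.natCast_eq_natCast_iff] at h1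
    have h2 := (Nat.modEq_iff_dvd).1 h1.symm
    obtain ⟨t, ht⟩ := h2
    have hP' : (P : ℤ) ≠ 0 := by exact_mod_cast hP.ne'
    have h3 : (((t % P).toNat : ℕ) : ℤ) = t % P := Int.toNat_of_nonneg (Int.emod_nonneg _ hP')
    refine ⟨(t % P).toNat, ?_, ?_⟩
    · rw [Finset.mem_range]
      have := Int.emod_lt_of_pos t (by exact_mod_cast hP : (0 : ℤ) < P)
      omega
    · have h4 : (w.val : ℤ) = z + n' * t := by linarith
      have h5 : (n : ℤ) ∣ n' * t - n' * (t % P) := by
        rw [← mul_sub, hn]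
        push_cast
        rw [mul_comm (P : ℤ) n']
        apply mul_dvd_mul_left
        exact Int.dvd_self_sub_emod
      have h6 : ((z + n' * (t % P).toNat : ℕ) : ZMod n) = ((w.val : ℕ) : ZMod n) := by
        have h7 : (((z + n' * (t % P).toNat : ℕ) : ℤ) : ZMod n) = ((w.val : ℤ) : ZMod n) := by
          rw [ZMod.intCast_eq_intCast_iff_dvd_sub, h4]
          push_cast
          rw [h3]
          have : (z : ℤ) + n' * t - (z + n' * (t % P)) = n' * t - n' * (t % P) := by ring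
          rw [this]
          exact h5
        exact_mod_cast h7
      rw [h6, ZMod.natCast_zmod_val]
  · intro j _
    rfl

theorem suff {n k p a v n' k' : ℕ} [NeZero n] (L : LD n k p a v n' k') (m x : ℕ)
    (hsol : ∀ c : ℕ, v < c → c ≤ a → ∀ (_ : NeZero (p ^ (a - c) * n'))
      (hg : Nat.gcd k n' ∣ p ^ (a - c) * n'),
      NoSol (p ^ (a - c) * n') (m / p ^ c) (p ^ c) (Nat.gcd k n') x hg) :
    Loc n m (Nat.gcd k n) x (n' * p ^ v) := by
  classical
  intro z hz
  have hp := L.hp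
  have hv := L.hv
  have : NeZero n' := ⟨L.n'_ne⟩
  have hn0 : 0 < n' := Nat.pos_of_ne_zero L.n'_ne
  have hP : 0 < p ^ a := pow_pos hp.pos a
  have hn' : n' ∣ n := by rw [L.hn]; exact dvd_mul_left _ _
  set h : ℕ := n' * p ^ v with hh
  have hzg : (z : ZMod (Nat.gcd k n')) = (x : ZMod (Nat.gcd k n')) := by
    rw [ZMod.natCast_eq_natCast_iff]
    apply hz.of_dvd
    rw [L.gcd_eq]
    exact dvd_mul_left _ _
  set Φ : ℕ → ℂ := fun j => (F n m ((z + h + n' * j : ℕ) : ZMod n) : ℂ) -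
    (F n m ((z + n' * j : ℕ) : ZMod n) : ℂ) with hΦ
  set Q : ℂ[X] := ∑ j ∈ range (p ^ a), C (Φ j) * X ^ j with hQ
  have heval : ∀ ξ : ℂ, ξ ^ (p ^ a) = 1 → Q.eval ξ = 0 := by
    intro ξ hξ
    obtain ⟨u, hu⟩ : ∃ u : ℕ, n' * u ≡ 1 [MOD p ^ a] := by
      have hco : Nat.Coprime n' (p ^ a) :=
        Nat.Coprime.pow_right _ ((Nat.Prime.coprime_iff_not_dvd hp).2 L.hn').symm
      have hun : IsUnit (n' : ZMod (p ^ a)) := (ZMod.isUnit_iff_coprime _ _).2 hco
      obtain ⟨w, hw⟩ := hun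
      have : NeZero (p ^ a) := ⟨hP.ne'⟩
      refine ⟨((w⁻¹ : (ZMod (p ^ a))ˣ) : ZMod (p ^ a)).val, ?_⟩
      rw [← ZMod.natCast_eq_natCast_iff, Nat.cast_mul, ZMod.natCast_zmod_val, ← hw,
        Units.mul_inv, Nat.cast_one]
    set ζ : ℂ := ξ ^ u with hζd
    have hζn' : ζ ^ n' = ξ := by
      rw [hζd, ← pow_mul, mul_comm u n', pow_eq_pow_mod _ hξ, hu, ← pow_eq_pow_mod _ hξ, pow_one]
    have hζa : ζ ^ (p ^ a) = 1 := by rw [hζd, ← pow_mul, mul_comm, pow_mul, hξ, one_pow]
    obtain ⟨c, hca, hc⟩ := (Nat.dvd_prime_pow hp).1 (orderOf_dvd_of_pow_eq_one hζa)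
    have hζ : IsPrimitiveRoot ζ (p ^ c) := by rw [← hc]; exact IsPrimitiveRoot.orderOf ζ
    have hζn : ζ ^ n = 1 := by rw [L.hn, pow_mul, hζa, one_pow]
    have hζ0 : ζ ≠ 0 := by
      intro h0
      rw [h0, zero_pow (NeZero.ne n)] at hζn
      exact zero_ne_one hζn
    set e := AddChar.zmodChar n hζn with he
    have hnP : n = p ^ a * n' := L.hn
    set A : ℂ := ∑ j ∈ range (p ^ a), (F n m ((z + n' * j : ℕ) : ZMod n) : ℂ) * ξ ^ j with hA
    set B : ℂ := ∑ j ∈ range (p ^ a), (F n m ((z + h + n' * j : ℕ) : ZMod n) : ℂ) * ξ ^ j with hB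
    have hQe : Q.eval ξ = B - A := by
      rw [hQ, eval_finsetSum, hB, hA, ← Finset.sum_sub_distrib]
      refine Finset.sum_congr rfl fun j _ => ?_
      simp only [hΦ, eval_mul, eval_C, eval_pow, eval_X]
      ring
    set E : ℂ := ∑ w ∈ univ.filter (fun w : ZMod n =>
      ZMod.castHom hn' (ZMod n') w = (z : ZMod n')), (F n m w : ℂ) * e w with hE
    have h1 : ∀ y : ℕ, (y : ZMod n') = (z : ZMod n') →
        ζ ^ y * ∑ j ∈ range (p ^ a), (F n m ((y + n' * j : ℕ) : ZMod n) : ℂ) * ξ ^ j = E := by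
      intro y hy
      rw [hE, ← hy, ← fiber_sum hP hn0 hnP hn' y (fun w => (F n m w : ℂ) * e w), Finset.mul_sum]
      refine Finset.sum_congr rfl fun j _ => ?_
      rw [he, AddChar.zmodChar_apply', pow_add, pow_mul, hζn']
      ring
    have hA' : ζ ^ z * A = E := h1 z rfl
    have hB' : ζ ^ (z + h) * B = E := h1 (z + h) (by
      rw [Nat.cast_add, hh, Nat.cast_mul, ZMod.natCast_self, zero_mul, add_zero])
    rcases Nat.lt_or_ge v c with hvc | hvc
    · -- the count vanishes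
      have hE0 : E = 0 := by
        have hNz : NeZero (p ^ (a - c) * n') :=
          ⟨mul_ne_zero (pow_ne_zero _ hp.ne_zero) L.n'_ne⟩
        have : NeZero (p ^ c) := ⟨pow_ne_zero _ hp.ne_zero⟩
        have hnN : n = p ^ (a - c) * n' * p ^ c := by
          have : p ^ a = p ^ (a - c) * p ^ c := by rw [← pow_add]; congr 1; omega
          rw [L.hn, this]; ring
        have hN' : n' ∣ p ^ (a - c) * n' := dvd_mul_left _ _
        have hq : p ^ c ∣ n := by rw [hnN]; exact dvd_mul_left _ _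
        have hco : Nat.Coprime n' (p ^ c) :=
          Nat.Coprime.pow_right _ ((Nat.Prime.coprime_iff_not_dvd hp).2 L.hn').symm
        obtain ⟨s, -, hcount⟩ := key_count hnN hN' hn' hq hco hζ e (char_val hq hζ hζn) m
        rw [hE, hcount]
        have : (((univ.erase (0 : ZMod (p ^ (a - c) * n'))).powersetCard (m / p ^ c)).filter
            (fun D => p ^ c • ZMod.castHom hN' (ZMod n') (∑ d ∈ D, d) = (z : ZMod n'))).card = 0 := by
          rw [Finset.card_eq_zero, Finset.filter_eq_empty_iff]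
          intro D hD hcon
          have hg : Nat.gcd k n' ∣ p ^ (a - c) * n' :=
            (Nat.gcd_dvd_right k n').trans hN'
          apply hsol c hvc hca hNz hg D hD
          rw [← hzg]
          have h5 := congrArg (ZMod.castHom (Nat.gcd_dvd_right k n') (ZMod (Nat.gcd k n'))) hcon
          rw [map_natCast] at h5
          rw [← h5, nsmul_eq_mul, nsmul_eq_mul, map_mul, map_natCast]
          congr 1
          rw [← RingHom.comp_apply]
          congr 1
          exact (RingHom.ext_zmod _ _)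
        rw [this, Nat.cast_zero, mul_zero]
      rw [hE0] at hA' hB'
      have hA0 : A = 0 := (mul_eq_zero.1 hA').resolve_left (pow_ne_zero _ hζ0)
      have hB0 : B = 0 := (mul_eq_zero.1 hB').resolve_left (pow_ne_zero _ hζ0)
      rw [hQe, hA0, hB0, sub_zero]
    · have hζh : ζ ^ h = 1 := by
        rw [hζ.pow_eq_one_iff_dvd, hh]
        exact Dvd.dvd.mul_left (pow_dvd_pow p hvc) _
      rw [pow_add, hζh, mul_one, ← hA'] at hB'
      have := mul_left_cancel₀ (pow_ne_zero _ hζ0) hB'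
      rw [hQe, this, sub_self]
  have hQ0 : Q = 0 := by
    apply Polynomial.eq_zero_of_natDegree_lt_card_of_eval_eq_zero' Q
      (Polynomial.nthRootsFinset (p ^ a) (1 : ℂ))
    · intro ξ hξ
      exact heval ξ ((Polynomial.mem_nthRootsFinset hP _).1 hξ)
    · rw [(Complex.isPrimitiveRoot_exp (p ^ a) hP.ne').card_nthRootsFinset]
      have h1 : Q.natDegree ≤ p ^ a - 1 := by
        apply Polynomial.natDegree_sum_le_of_forall_le
        intro j hj
        refine (Polynomial.natDegree_C_mul_X_pow_le _ _).trans ?_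
        have := Finset.mem_range.1 hj
        omega
      omega
  have hc0 : Q.coeff 0 = Φ 0 := by
    rw [hQ, finsetSum_coeff, Finset.sum_eq_single 0]
    · simp
    · intro j _ hj
      rw [coeff_C_mul, coeff_X_pow, if_neg (Ne.symm hj), mul_zero]
    · intro h0
      exact absurd (Finset.mem_range.2 hP) h0
  rw [hQ0, coeff_zero] at hc0
  have h9 : (F n m ((z + h : ℕ) : ZMod n) : ℂ) = (F n m (z : ZMod n) : ℂ) := by
    have := hc0
    simp only [hΦ, mul_zero, add_zero] at this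
    exact sub_eq_zero.1 this.symm
  exact_mod_cast h9

end Pool.Agent.R865.DS
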