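import Mathlib
import Pool.Agent.R865.DS.E

set_option autoImplicit false

/-! The explicit form of the local conditions. -/

namespace Pool.Agent.R865.DS
open Finset

lemma two_T (m : ℕ) : 2 * (m * (m - 1) / 2) = m * (m - 1) :=
  Nat.two_mul_div_two_of_even (Nat.even_mul_pred_self m)

lemma sum_univ_zmod (N : ℕ) [NeZero N] : ∑ y : ZMod N, y = ((N * (N - 1) / 2 : ℕ) : ZMod N) := by
  have h : ∑ t : ZMod N, t = ∑ i ∈ range N, (i : ZMod N) := by
    apply Finset.sum_bij (fun (t : ZMod N) _ => t.val)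
    · intro t _
      exact Finset.mem_range.2 (ZMod.val_lt t)
    · intro a _ b _ h
      exact ZMod.val_injective N h
    · intro i hi
      exact ⟨(i : ZMod N), Finset.mem_univ _, ZMod.val_cast_of_lt (Finset.mem_range.1 hi)⟩
    · intro t _
      exact (ZMod.natCast_zmod_val t).symm
  rw [h, ← Nat.cast_sum, Finset.sum_range_id]

lemma T_mul {N q : ℕ} (hN : 0 < N) (hq : 0 < q) :
    N * q * (N * q - 1) / 2 = q * (N * (N - 1) / 2) + N * (N * (q * (q - 1) / 2)) := by
  have h1 := two_T (N * q)
  have h2 := two_T N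
  have h3 := two_T q
  have h4 : 2 * (N * q * (N * q - 1) / 2) =
      2 * (q * (N * (N - 1) / 2) + N * (N * (q * (q - 1) / 2))) := by
    have e : 2 * (q * (N * (N - 1) / 2) + N * (N * (q * (q - 1) / 2))) =
        q * (2 * (N * (N - 1) / 2)) + N * (N * (2 * (q * (q - 1) / 2))) := by ring
    rw [h1, e, h2, h3]
    obtain ⟨N, rfl⟩ := Nat.exists_eq_succ_of_ne_zero hN.ne'
    obtain ⟨q, rfl⟩ := Nat.exists_eq_succ_of_ne_zero hq.ne'
    have e2 : (N + 1) * (q + 1) - 1 = N * q + N + q := by
      have : (N + 1) * (q + 1) = N * q + N + q + 1 := by ring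
      omega
    rw [Nat.succ_eq_add_one, Nat.succ_eq_add_one, e2, Nat.add_sub_cancel, Nat.add_sub_cancel]
    ring
  omega

lemma sigma_eq {N q g' : ℕ} [NeZero N] (hq : 0 < q) (hg : g' ∣ N) :
    q • ZMod.castHom hg (ZMod g') (∑ y : ZMod N, y) = ((N * q * (N * q - 1) / 2 : ℕ) : ZMod g') := by
  rw [sum_univ_zmod, map_natCast, T_mul (Nat.pos_of_ne_zero (NeZero.ne N)) hq, nsmul_eq_mul]
  push_cast
  have h : ((N : ℕ) : ZMod g') = 0 := (ZMod.natCast_eq_zero_iff _ _).2 hg
  rw [h]
  ring

lemma lem1 {N q g' : ℕ} [NeZero N] (hg : g' ∣ N) (hco : Nat.Coprime q g') (t : ZMod g')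
    (h : ∀ c : ZMod N, c ≠ 0 → q • ZMod.castHom hg (ZMod g') c ≠ t) : g' = N ∧ t = 0 := by
  have hN : 0 < N := Nat.pos_of_ne_zero (NeZero.ne N)
  have hg0 : g' ≠ 0 := by
    rintro rfl
    exact NeZero.ne N (Nat.eq_zero_of_zero_dvd hg)
  have : NeZero g' := ⟨hg0⟩
  obtain ⟨w, hw⟩ := (ZMod.isUnit_iff_coprime q g').2 hco
  set r0 : ZMod g' := ((w⁻¹ : (ZMod g')ˣ) : ZMod g') * t with hr0
  have hr : (q : ZMod g') * r0 = t := by rw [hr0, ← hw, ← mul_assoc, Units.mul_inv, one_mul]
  have hgN : g' = N := by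
    by_contra hne
    have hlt : g' < N := lt_of_le_of_ne (Nat.le_of_dvd hN hg) hne
    by_cases h0 : r0.val = 0
    · apply h (g' : ZMod N)
      · intro h1
        rw [ZMod.natCast_eq_zero_iff] at h1
        have := Nat.le_of_dvd (Nat.pos_of_ne_zero hg0) h1
        omega
      · rw [map_natCast, ZMod.natCast_self, smul_zero]
        have : r0 = 0 := by rw [← ZMod.natCast_zmod_val r0, h0, Nat.cast_zero]
        rw [← hr, this, mul_zero]
    · apply h (r0.val : ZMod N)
      · intro h1
        rw [ZMod.natCast_eq_zero_iff] at h1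
        have h2 := Nat.le_of_dvd (Nat.pos_of_ne_zero h0) h1
        have h3 := ZMod.val_lt r0
        omega
      · rw [map_natCast, ZMod.natCast_zmod_val, nsmul_eq_mul, hr]
  refine ⟨hgN, ?_⟩
  subst hgN
  by_contra ht
  apply h r0
  · intro h0
    apply ht
    rw [← hr, h0, mul_zero]
  · have : ZMod.castHom hg (ZMod g') r0 = r0 := by
      rw [show ZMod.castHom hg (ZMod g') = RingHom.id _ from RingHom.ext_zmod _ _]
      rfl
    rw [this, nsmul_eq_mul, hr]

lemma lem2 {N q g' : ℕ} [NeZero N] (hg : g' ∣ N) (hco : Nat.Coprime q g') (hgN : g' = N)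
    (c : ZMod N) (h : q • ZMod.castHom hg (ZMod g') c = 0) : c = 0 := by
  subst hgN
  obtain ⟨w, hw⟩ := (ZMod.isUnit_iff_coprime q g').2 hco
  rw [show ZMod.castHom hg (ZMod g') = RingHom.id _ from RingHom.ext_zmod _ _, RingHom.id_apply,
    nsmul_eq_mul, ← hw] at h
  simpa using h

lemma nosol_iff {N κ q g' x : ℕ} [NeZero N] (hq : 0 < q) (hg : g' ∣ N) (hco : Nat.Coprime q g')
    (hκ : κ ≤ N - 1) :
    NoSol N κ q g' x hg ↔ ((κ = 0 ∧ ¬ g' ∣ x) ∨
      (κ = N - 1 ∧ ¬ x ≡ N * q * (N * q - 1) / 2 [MOD g']) ∨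
      (κ = 1 ∧ g' = N ∧ g' ∣ x) ∨
      (κ + 2 = N ∧ g' = N ∧ x ≡ N * q * (N * q - 1) / 2 [MOD g'])) := by
  classical
  have hN : 0 < N := Nat.pos_of_ne_zero (NeZero.ne N)
  have hS := sigma_eq (N := N) hq hg
  set σ : ℕ := N * q * (N * q - 1) / 2 with hσ
  have hcard : (univ.erase (0 : ZMod N)).card = N - 1 := by
    rw [Finset.card_erase_of_mem (Finset.mem_univ _), Finset.card_univ, ZMod.card]
  have hsum0 : ∑ d ∈ univ.erase (0 : ZMod N), d = ∑ y : ZMod N, y := by
    have := Finset.add_sum_erase univ (fun d : ZMod N => d) (Finset.mem_univ (0 : ZMod N))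
    simpa using this
  have hsumc : ∀ c : ZMod N, c ≠ 0 →
      ∑ d ∈ (univ.erase (0 : ZMod N)).erase c, d = ∑ y : ZMod N, y - c := by
    intro c hc
    have := Finset.add_sum_erase (univ.erase (0 : ZMod N)) (fun d : ZMod N => d)
      (Finset.mem_erase.2 ⟨hc, Finset.mem_univ c⟩)
    rw [← hsum0, ← this]
    ring
  constructor
  · intro h
    rcases Nat.eq_zero_or_pos κ with h0 | h0
    · left
      refine ⟨h0, ?_⟩
      intro hdv
      apply h ∅ (by rw [h0]; simp)
      rw [Finset.sum_empty, map_zero, smul_zero]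
      exact ((ZMod.natCast_eq_zero_iff _ _).2 hdv).symm
    · right
      rcases Nat.eq_or_lt_of_le hκ with h1 | h1
      · left
        refine ⟨h1, ?_⟩
        intro hx
        apply h (univ.erase 0) (by rw [Finset.mem_powersetCard, hcard]; exact ⟨subset_rfl, h1.symm⟩)
        rw [hsum0, hS]
        exact ((ZMod.natCast_eq_natCast_iff _ _ _).2 hx).symm
      · right
        by_cases h2 : κ = 1
        · left
          have h3 := lem1 hg hco (x : ZMod g') (fun c hc => by
            have := h {c} (by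
              rw [Finset.mem_powersetCard, Finset.card_singleton, Finset.singleton_subset_iff,
                Finset.mem_erase]
              exact ⟨⟨hc, Finset.mem_univ _⟩, h2.symm⟩)
            rwa [Finset.sum_singleton] at this)
          exact ⟨h2, h3.1, (ZMod.natCast_eq_zero_iff _ _).1 h3.2⟩
        · by_cases h3 : κ + 2 = N
          · right
            have h4 := lem1 hg hco ((σ : ZMod g') - x) (fun c hc hcon => by
              have hcard2 : ((univ.erase (0 : ZMod N)).erase c).card = κ := by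
                rw [Finset.card_erase_of_mem (Finset.mem_erase.2 ⟨hc, Finset.mem_univ c⟩), hcard]
                omega
              apply h ((univ.erase (0 : ZMod N)).erase c)
                (by rw [Finset.mem_powersetCard]; exact ⟨Finset.erase_subset _ _, hcard2⟩)
              rw [hsumc c hc, map_sub, smul_sub, hS, hcon]
              ring)
            refine ⟨h3, h4.1, ?_⟩
            rw [← ZMod.natCast_eq_natCast_iff]
            exact (sub_eq_zero.1 h4.2).symm
          · exfalso
            have h5 : 2 ≤ κ := by omega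
            have h6 : κ + 3 ≤ N := by omega
            have h7 : N ≤ κ * (N - 1 - κ) + 1 := by
              obtain ⟨d, hd⟩ := Nat.exists_eq_add_of_le h6
              have e1 : N - 1 - κ = d + 2 := by omega
              rw [e1, hd]
              obtain ⟨κ', rfl⟩ := Nat.exists_eq_add_of_le h5
              nlinarith [Nat.zero_le (κ' * d)]
            have hg0 : g' ≠ 0 := by
              rintro rfl
              exact NeZero.ne N (Nat.eq_zero_of_zero_dvd hg)
            have : NeZero g' := ⟨hg0⟩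
            obtain ⟨w, hw⟩ := (ZMod.isUnit_iff_coprime q g').2 hco
            obtain ⟨r, hr⟩ := ZMod.castHom_surjective hg (((w⁻¹ : (ZMod g')ˣ) : ZMod g') * x)
            obtain ⟨D, hD, hDr⟩ := cover h7 hκ r
            apply h D hD
            rw [hDr, hr, nsmul_eq_mul, ← hw, ← mul_assoc, Units.mul_inv, one_mul]
  · intro h D hD hcon
    rw [Finset.mem_powersetCard] at hD
    rcases h with ⟨h0, h1⟩ | ⟨h0, h1⟩ | ⟨h0, h1, h2⟩ | ⟨h0, h1, h2⟩
    · rw [h0, Finset.card_eq_zero] at hD
      rw [hD.2, Finset.sum_empty, map_zero, smul_zero] at hcon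
      exact h1 ((ZMod.natCast_eq_zero_iff _ _).1 hcon.symm)
    · have hD2 : D = univ.erase 0 := Finset.eq_of_subset_of_card_le hD.1 (by
        rw [hcard, hD.2, h0])
      rw [hD2, hsum0, hS] at hcon
      exact h1 ((ZMod.natCast_eq_natCast_iff _ _ _).1 hcon.symm)
    · rw [h0] at hD
      obtain ⟨c, hc⟩ := Finset.card_eq_one.1 hD.2
      have hc0 : c ≠ 0 := by
        have := hD.1
        rw [hc, Finset.singleton_subset_iff, Finset.mem_erase] at this
        exact this.1
      rw [hc, Finset.sum_singleton, (ZMod.natCast_eq_zero_iff x g').2 h2] at hcon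
      exact hc0 (lem2 hg hco h1 c hcon)
    · have hlt : D.card < (univ.erase (0 : ZMod N)).card := by rw [hD.2, hcard]; omega
      obtain ⟨c, hc1, hc2⟩ := Finset.exists_mem_notMem_of_card_lt_card hlt
      have hc0 : c ≠ 0 := (Finset.mem_erase.1 hc1).1
      have hDc : D = (univ.erase (0 : ZMod N)).erase c := by
        apply Finset.eq_of_subset_of_card_le
        · intro d hd
          rw [Finset.mem_erase]
          exact ⟨fun h => hc2 (h ▸ hd), hD.1 hd⟩
        · rw [Finset.card_erase_of_mem hc1, hcard, hD.2]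
          omega
      rw [hDc, hsumc c hc0, map_sub, smul_sub, hS, ← (ZMod.natCast_eq_natCast_iff _ _ _).2 h2] at hcon
      have : q • ZMod.castHom hg (ZMod g') c = 0 := by
        have h9 := hcon
        rw [sub_eq_self] at h9
        exact h9
      exact hc0 (lem2 hg hco h1 c this)

end Pool.Agent.R865.DS
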