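import Mathlib
import Pool.Agent.R865.DS.G

set_option autoImplicit false

/-! The local conditions in explicit form. -/

namespace Pool.Agent.R865.DS
open Finset

/-- the explicit local condition -/
def Cond (n k x p a v : ℕ) : Prop :=
  (k < p ^ (v + 1) ∧ ¬ Nat.gcd k n ∣ x) ∨
  (n - k < p ^ (v + 1) ∧ ¬ x ≡ n * (n - 1) / 2 [MOD Nat.gcd k n]) ∨
  (n / p ∣ k ∧ n / p ∣ x ∧ p ^ a < k ∧ k < 2 * p ^ a) ∨
  (n / p ∣ n - k ∧ x ≡ n * (n - 1) / 2 [MOD n / p] ∧ p ^ a < n - k ∧ n - k < 2 * p ^ a)

lemma LD.dvd_sigma {n k p a v n' k' : ℕ} (L : LD n k p a v n' k') :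
    p ^ v ∣ n * (n - 1) / 2 := by
  have hp := L.hp
  have hv := L.hv
  have h1 := two_T n
  obtain ⟨a', rfl⟩ : ∃ a', a = a' + 1 := ⟨a - 1, by omega⟩
  have hva : p ^ v ∣ p ^ a' := pow_dvd_pow p (by omega)
  rcases hp.eq_two_or_odd' with h2 | h2
  · have h3 : 2 * (n * (n - 1) / 2) = 2 * (p ^ a' * (n' * (n - 1))) := by
      calc 2 * (n * (n - 1) / 2) = n * (n - 1) := h1
        _ = (p ^ (a' + 1) * n') * (n - 1) := by rw [← L.hn]
        _ = p * (p ^ a' * (n' * (n - 1))) := by rw [pow_succ]; ring
        _ = 2 * (p ^ a' * (n' * (n - 1))) := by rw [h2]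
    have h4 := Nat.eq_of_mul_eq_mul_left (by norm_num : 0 < 2) h3
    rw [h4]
    exact Dvd.dvd.mul_right hva _
  · have h3 : p ^ v ∣ 2 * (n * (n - 1) / 2) := by
      rw [h1]
      conv_rhs => rw [L.hn]
      rw [mul_assoc, pow_succ]
      exact Dvd.dvd.mul_right (Dvd.dvd.mul_right hva _) _
    refine Nat.Coprime.dvd_of_dvd_mul_left ?_ h3
    exact Nat.Coprime.pow_left _ (h2.coprime_two_right)

lemma LD.not_dvd_k {n k p a v n' k' : ℕ} (L : LD n k p a v n' k') : ¬ p ^ (v + 1) ∣ k := by
  rw [L.hk, pow_succ]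
  intro h
  exact L.hk' (Nat.dvd_of_mul_dvd_mul_left (pow_pos L.hp.pos v) h)

lemma LD.div_p {n k p a v n' k' : ℕ} (L : LD n k p a v n' k') : n / p = p ^ (a - 1) * n' := by
  have hv := L.hv
  have : n = p ^ (a - 1) * n' * p := by
    have h : p ^ a = p ^ (a - 1) * p := by rw [← pow_succ]; congr 1; omega
    rw [L.hn, h]; ring
  rw [this, Nat.mul_div_cancel _ L.hp.pos]

theorem loc_iff {n k p a v n' k' : ℕ} [NeZero n] (L : LD n k p a v n' k') (hk : 1 ≤ k)
    (hkn : k < n) (x : ℕ) :
    Loc n (k - 1) (Nat.gcd k n) x (n' * p ^ v) ↔ (p ^ v ∣ x → Cond n k x p a v) := by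
  have hp := L.hp
  have hv := L.hv
  have hn0 : 0 < n' := Nat.pos_of_ne_zero L.n'_ne
  have hgn' : Nat.gcd k n' ∣ n' := Nat.gcd_dvd_right k n'
  have hcog : ∀ c : ℕ, Nat.Coprime (p ^ c) (Nat.gcd k n') := fun c =>
    Nat.Coprime.coprime_dvd_right hgn'
      (Nat.Coprime.pow_left _ ((Nat.Prime.coprime_iff_not_dvd hp).2 L.hn'))
  have hnc : ∀ c : ℕ, c ≤ a → n = p ^ (a - c) * n' * p ^ c := by
    intro c hc
    have : p ^ a = p ^ (a - c) * p ^ c := by rw [← pow_add]; congr 1; omega
    rw [L.hn, this]; ring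
  have hNz : ∀ c : ℕ, NeZero (p ^ (a - c) * n') := fun c =>
    ⟨mul_ne_zero (pow_ne_zero _ hp.ne_zero) L.n'_ne⟩
  have hgN : ∀ c : ℕ, Nat.gcd k n' ∣ p ^ (a - c) * n' := fun c => hgn'.trans (dvd_mul_left _ _)
  have hσ := L.dvd_sigma
  set σ : ℕ := n * (n - 1) / 2 with hσd
  have hgx : p ^ v ∣ x → (Nat.gcd k n ∣ x ↔ Nat.gcd k n' ∣ x) := by
    intro hx
    rw [L.gcd_eq]
    constructor
    · exact fun h => (dvd_mul_left _ _).trans h
    · exact fun h => (hcog v).mul_dvd_of_dvd_of_dvd hx h
  have hgσ : p ^ v ∣ x → (x ≡ σ [MOD Nat.gcd k n] ↔ x ≡ σ [MOD Nat.gcd k n']) := by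
    intro hx
    constructor
    · intro h
      apply h.of_dvd
      rw [L.gcd_eq]
      exact dvd_mul_left _ _
    · exact fun h => L.modEq hx hσ h
  have hdk : ∀ d : ℕ, n / p ∣ k ↔ n / p ∣ n - k := by
    intro _
    have hd : n / p ∣ n := Nat.div_dvd_of_dvd (by rw [L.hn]; exact Dvd.dvd.mul_right (dvd_pow_self p (by omega)) _)
    constructor
    · exact fun h => Nat.dvd_sub hd h
    · intro h
      have := Nat.dvd_sub hd h
      rwa [Nat.sub_sub_self hkn.le] at this
  constructor
  · intro hl hx
    have hb : v + 1 ≤ a := hv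
    have := hNz (v + 1)
    have hns0 := necc L (k - 1) x hx (hgN (v + 1)) hl
    set N := p ^ (a - (v + 1)) * n' with hN
    set q := p ^ (v + 1) with hq
    have hq0 : 0 < q := pow_pos hp.pos _
    have hN0 : 0 < N := Nat.pos_of_ne_zero (NeZero.ne N)
    have hnNq : n = N * q := hnc (v + 1) hb
    have hlt : (k - 1) / q < N := by
      apply Nat.div_lt_of_lt_mul
      rw [mul_comm, ← hnNq]; omega
    have hns := (nosol_iff (N := N) (κ := (k - 1) / q) (q := q) (g' := Nat.gcd k n') (x := x)
      hq0 (hgN (v + 1)) (hcog (v + 1)) (by omega)).1 hns0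
    rw [← hnNq, ← hσd] at hns
    have hkq : k ≠ q := by
      intro h
      exact L.not_dvd_k (by rw [h])
    have hmod := Nat.div_add_mod (k - 1) q
    have hmodlt := Nat.mod_lt (k - 1) hq0
    rcases hns with ⟨h0, h1⟩ | ⟨h0, h1⟩ | ⟨h0, h1, h2⟩ | ⟨h0, h1, h2⟩
    · left
      refine ⟨?_, fun h => h1 ((hgx hx).1 h)⟩
      rw [h0, mul_zero] at hmod
      omega
    · right; left
      refine ⟨?_, fun h => h1 ((hgσ hx).1 h)⟩
      rw [h0] at hmod
      have h3 : q * (N - 1) + q = n := by
        rw [hnNq, ← Nat.mul_succ, Nat.succ_eq_add_one, Nat.sub_add_cancel hN0, mul_comm]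
      omega
    · -- case D
      have h3 : p ^ (a - (v + 1)) = 1 := by
        have h4 : p ^ (a - (v + 1)) * n' ≤ n' := by
          rw [← hN, ← h1]; exact Nat.le_of_dvd hn0 hgn'
        have h5 : 0 < p ^ (a - (v + 1)) := pow_pos hp.pos _
        nlinarith
      have h4 : a = v + 1 := by
        have := (Nat.pow_eq_one.1 h3)
        rcases this with h | h
        · exact absurd h hp.one_lt.ne'
        · omega
      have h5 : Nat.gcd k n' = n' := by rw [h1, hN, h3, one_mul]
      have h6 : n / p = p ^ v * n' := by rw [L.div_p, h4, Nat.add_sub_cancel]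
      have hcvn : Nat.Coprime (p ^ v) n' :=
        Nat.Coprime.pow_left _ ((Nat.Prime.coprime_iff_not_dvd hp).2 L.hn')
      right; right; left
      rw [h6]
      refine ⟨?_, ?_, ?_, ?_⟩
      · apply hcvn.mul_dvd_of_dvd_of_dvd
        · rw [L.hk]; exact dvd_mul_right _ _
        · rw [← h5]; exact Nat.gcd_dvd_left _ _
      · apply hcvn.mul_dvd_of_dvd_of_dvd hx
        rw [← h5]; exact h2
      · rw [h4, ← hq]
        rw [h0, mul_one] at hmod
        omega
      · rw [h4, ← hq]
        rw [h0, mul_one] at hmod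
        have h2q : k ≠ 2 * q := by
          intro h
          exact L.not_dvd_k (by rw [h]; exact dvd_mul_left _ _)
        omega
    · -- case E
      have h3 : p ^ (a - (v + 1)) = 1 := by
        have h4 : p ^ (a - (v + 1)) * n' ≤ n' := by
          rw [← hN, ← h1]; exact Nat.le_of_dvd hn0 hgn'
        have h5 : 0 < p ^ (a - (v + 1)) := pow_pos hp.pos _
        nlinarith
      have h4 : a = v + 1 := by
        have := (Nat.pow_eq_one.1 h3)
        rcases this with h | h
        · exact absurd h hp.one_lt.ne'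
        · omega
      have h5 : Nat.gcd k n' = n' := by rw [h1, hN, h3, one_mul]
      have h6 : n / p = p ^ v * n' := by rw [L.div_p, h4, Nat.add_sub_cancel]
      have hcvn : Nat.Coprime (p ^ v) n' :=
        Nat.Coprime.pow_left _ ((Nat.Prime.coprime_iff_not_dvd hp).2 L.hn')
      have h7 : q * ((k - 1) / q) + 2 * q = n := by
        rw [hnNq, ← h0]; ring
      right; right; right
      refine ⟨?_, ?_, ?_, ?_⟩
      · rw [← hdk 0, h6]
        apply hcvn.mul_dvd_of_dvd_of_dvd
        · rw [L.hk]; exact dvd_mul_right _ _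
        · rw [← h5]; exact Nat.gcd_dvd_left _ _
      · rw [h6, ← Nat.modEq_and_modEq_iff_modEq_mul hcvn]
        refine ⟨((Nat.modEq_zero_iff_dvd).2 hx).trans ((Nat.modEq_zero_iff_dvd).2 hσ).symm, ?_⟩
        rw [← h5]; exact h2
      · rw [h4, ← hq]
        have h8 : n - k ≠ q := by
          intro h
          apply L.not_dvd_k
          rw [← hq]
          have : k = n - q := by omega
          rw [this]
          exact Nat.dvd_sub (by rw [hnNq]; exact dvd_mul_left _ _) dvd_rfl
        omega
      · rw [h4, ← hq]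
        omega
  · intro h
    by_cases hx : p ^ v ∣ x
    · apply suff L
      intro c hvc hca hNzc hgc
      have hnNq := hnc c hca
      set N := p ^ (a - c) * n' with hN
      set q := p ^ c with hq
      have hq0 : 0 < q := pow_pos hp.pos _
      have hN0 : 0 < N := Nat.pos_of_ne_zero (NeZero.ne N)
      have hqv : p ^ (v + 1) ≤ q := Nat.pow_le_pow_right hp.pos hvc
      have hlt : (k - 1) / q < N := by
        apply Nat.div_lt_of_lt_mul
        rw [mul_comm, ← hnNq]; omega
      refine (nosol_iff (N := N) (κ := (k - 1) / q) (q := q) (g' := Nat.gcd k n') (x := x)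
        hq0 hgc (hcog c) (by omega)).2 ?_
      rw [← hnNq, ← hσd]
      -- the number `a` is `v + 1` in the last two cases
      have hav : n / p ∣ k → a = v + 1 := by
        intro hd
        rw [L.div_p] at hd
        have h1 : p ^ (a - 1) ∣ k := (dvd_mul_right _ _).trans hd
        by_contra hne
        apply L.not_dvd_k
        exact (pow_dvd_pow p (by omega)).trans h1
      rcases h hx with ⟨h0, h1⟩ | ⟨h0, h1⟩ | ⟨h0, h1, h2, h3⟩ | ⟨h0, h1, h2, h3⟩
      · left
        refine ⟨Nat.div_eq_of_lt (by omega), fun h => h1 ((hgx hx).2 h)⟩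
      · right; left
        refine ⟨?_, fun h => h1 ((hgσ hx).2 h)⟩
        have h4 : N - 1 ≤ (k - 1) / q := by
          rw [Nat.le_div_iff_mul_le hq0]
          have h5 : (N - 1) * q + q = n := by
            rw [hnNq, ← Nat.succ_mul, Nat.succ_eq_add_one, Nat.sub_add_cancel hN0]
          omega
        omega
      · have h4 := hav h0
        have hc : c = a := by omega
        have hqa : q = p ^ a := by rw [hq, hc]
        have hNn : N = n' := by rw [hN, hc, Nat.sub_self, pow_zero, one_mul]
        have h6 : n / p = p ^ v * n' := by rw [L.div_p, h4, Nat.add_sub_cancel]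
        have h7 : n' ∣ k := (by rw [h6] at h0; exact (dvd_mul_left _ _).trans h0)
        have h8 : Nat.gcd k n' = n' := Nat.gcd_eq_right h7
        right; right; left
        refine ⟨?_, by rw [h8, hNn], ?_⟩
        · rw [Nat.div_eq_iff hq0, hqa]
          omega
        · rw [h8]
          rw [h6] at h1
          exact (dvd_mul_left _ _).trans h1
      · have h0' := (hdk 0).2 h0
        have h4 := hav h0'
        have hc : c = a := by omega
        have hqa : q = p ^ a := by rw [hq, hc]
        have hNn : N = n' := by rw [hN, hc, Nat.sub_self, pow_zero, one_mul]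
        have h6 : n / p = p ^ v * n' := by rw [L.div_p, h4, Nat.add_sub_cancel]
        have h7 : n' ∣ k := (by rw [h6] at h0'; exact (dvd_mul_left _ _).trans h0')
        have h8 : Nat.gcd k n' = n' := Nat.gcd_eq_right h7
        right; right; right
        refine ⟨?_, by rw [h8, hNn], ?_⟩
        · have h9 : 2 ≤ N := by
            by_contra hcon
            have : N = 1 := by omega
            rw [this, one_mul] at hnNq
            omega
          obtain ⟨N', hN'⟩ := Nat.exists_eq_add_of_le h9
          have h10 : n = N' * q + 2 * q := by rw [hnNq, hN']; ring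
          have h11 : (k - 1) / q = N' := by
            rw [Nat.div_eq_iff hq0]
            constructor
            · rw [mul_comm] at *
              omega
            · rw [mul_comm] at *
              omega
          omega
        · rw [h8]
          rw [h6] at h1
          exact h1.of_dvd (dvd_mul_left _ _)
    · intro z hz
      have h1 : ¬ p ^ v ∣ z := by
        intro hd
        apply hx
        have h2 : z ≡ x [MOD p ^ v] := hz.of_dvd (by rw [L.gcd_eq]; exact dvd_mul_right _ _)
        exact (Nat.modEq_zero_iff_dvd).1 (h2.symm.trans ((Nat.modEq_zero_iff_dvd).2 hd))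
      have := unit_shift (n := n) (k - 1) hp L.hn L.hn' hv.le z 1 h1
      rw [mul_one] at this
      exact this

end Pool.Agent.R865.DS
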